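import Mathlib

/-!
Perimeter along iterated Steiner symmetrizations (MP_37896c_gt): definitions and the statements of
the independent pieces of the disproof for every dimension `n ≥ 3`.
-/

open MeasureTheory Metric Set Filter Topology
open scoped ENNReal

namespace Pool.Agent.R921.SP

section general
variable {F : Type*} [NormedAddCommGroup F] [InnerProductSpace ℝ F]

/-- The Steiner symmetral of `E` in the direction of the unit vector `u`: on every line parallel to
`u` which meets `E`, the section of `E` is replaced by the closed segment centred on the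
orthogonal complement of `u` whose length is the one-dimensional measure of the section. -/
def steiner (u : F) (E : Set F) : Set F :=
  {p | (∃ t : ℝ, p + t • u ∈ E) ∧
    ENNReal.ofReal (2 * |inner ℝ p u|) ≤ volume {t : ℝ | p + t • u ∈ E}}

/-- `iter u E i = S_{u_{i-1}} ... S_{u_0} E`. -/
def iter (u : ℕ → F) (E : Set F) : ℕ → Set F
  | 0 => E
  | i + 1 => steiner (u i) (iter u E i)

end general

/-- Euclidean space. -/
abbrev V (n : ℕ) : Type := EuclideanSpace ℝ (Fin n)

/-- The plane. -/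
abbrev Pl : Type := EuclideanSpace ℝ (Fin 2)

/-- The divergence of a vector field. -/
noncomputable def divg {n : ℕ} (φ : V n → V n) (x : V n) : ℝ :=
  ∑ i, (fderiv ℝ φ x (EuclideanSpace.single i 1)) i

/-- The perimeter (total variation of the distributional gradient of the indicator function). -/
noncomputable def perimeter {n : ℕ} (E : Set (V n)) : ℝ≥0∞ :=
  ⨆ φ : {φ : V n → V n // ContDiff ℝ 1 φ ∧ HasCompactSupport φ ∧ ∀ x, ‖φ x‖ ≤ 1},
    ENNReal.ofReal (∫ x in E, divg φ.1 x)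

/-- The first two coordinates. -/
noncomputable def px {m : ℕ} (p : V (m + 2)) : Pl := !₂[p 0, p 1]

/-- The remaining coordinates. -/
noncomputable def pz {m : ℕ} (p : V (m + 2)) : V m := WithLp.toLp 2 fun j => p j.succ.succ

/-- The inclusion of the plane. -/
noncomputable def ix {m : ℕ} (x : Pl) : V (m + 2) :=
  WithLp.toLp 2 (Fin.cons (x 0) (Fin.cons (x 1) fun _ => 0))

/-- The set of all `(x, z)` with `x ∈ K ‖z‖`. -/
def lift (m : ℕ) (K : ℝ → Set Pl) : Set (V (m + 2)) := {p | px p ∈ K ‖pz p‖}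

/-- A nested family of planar convex sets of area `π (1 - r ^ 2)` such that for almost every `r`
the set moves only near `N` points at time `r`. -/
structure Good (N : ℕ) (K : ℝ → Set Pl) : Prop where
  compact : ∀ r, IsCompact (K r)
  convex : ∀ r, Convex ℝ (K r)
  anti : Antitone K
  left : ∀ r x, (∀ r' < r, x ∈ K r') → x ∈ K r
  nonempty : ∀ r ≤ 1, (K r).Nonempty
  empty : ∀ r, 1 < r → K r = ∅
  area : ∀ r ∈ Icc (0 : ℝ) 1, volume (K r) = ENNReal.ofReal (Real.pi * (1 - r ^ 2))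
  small : ∀ᵐ r : ℝ, r ∈ Ioo (0 : ℝ) 1 → ∀ ρ > 0, ∃ r1 r2, r1 < r ∧ r < r2 ∧
    ∃ c : Fin N → Pl, K r1 \ K r2 ⊆ ⋃ i, closedBall (c i) ρ

/-- SP-A: basic properties of planar Steiner symmetrization of compact convex sets. -/
def StmtA : Prop := ∀ (u : Pl) (K : Set Pl), ‖u‖ = 1 → IsCompact K → Convex ℝ K →
  IsCompact (steiner u K) ∧ Convex ℝ (steiner u K) ∧ volume (steiner u K) = volume K

/-- SP-B: the class of good families is stable. -/
def StmtB : Prop := ∀ (N : ℕ) (K : ℝ → Set Pl) (u : Pl), Good N K → ‖u‖ = 1 →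
  Good (2 * N) fun r => steiner u (K r)

/-- SP-C: there is a sequence of directions along which the symmetrals of all compact convex
planar sets tend to discs, uniformly. -/
def StmtC : Prop := ∃ u : ℕ → Pl, (∀ i, ‖u i‖ = 1) ∧ ∀ R > (0 : ℝ), ∀ ε > (0 : ℝ), ∃ i0 : ℕ,
  ∀ i ≥ i0, ∀ (K : Set Pl) (a : ℝ), IsCompact K → Convex ℝ K → K ⊆ closedBall 0 R → 0 ≤ a →
    volume K = ENNReal.ofReal (Real.pi * a ^ 2) → iter u K i ⊆ closedBall 0 (a + ε)

/-- SP-D: a good family exists. -/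
def StmtD : Prop := ∃ K : ℝ → Set Pl, Good 1 K

/-- The divergence of `x / √(|x|² + ε²) + z / √(|z|² + ε²)`. -/
noncomputable def dv (m : ℕ) (ε : ℝ) (p : V (m + 2)) : ℝ :=
  (2 / √(‖px p‖ ^ 2 + ε ^ 2) - ‖px p‖ ^ 2 / √(‖px p‖ ^ 2 + ε ^ 2) ^ 3) +
    (m / √(‖pz p‖ ^ 2 + ε ^ 2) - ‖pz p‖ ^ 2 / √(‖pz p‖ ^ 2 + ε ^ 2) ^ 3)

/-- SP-E: lower bound of the perimeter of the body of a good family. -/
def StmtE : Prop := ∀ (m N : ℕ) (K : ℝ → Set Pl) (ε : ℝ), 1 ≤ m → Good N K → 0 < ε →
  ENNReal.ofReal (∫ p in lift m K, dv m ε p) ≤ perimeter (lift m K)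

/-- SP-F: the body of a good family has finite perimeter. -/
def StmtF : Prop := ∀ (m N : ℕ) (K : ℝ → Set Pl), 1 ≤ m → Good N K → perimeter (lift m K) ≠ ⊤

/-- SP-G: the gap for the ball. -/
def StmtG : Prop := ∀ m : ℕ, 1 ≤ m → ∃ ε > (0 : ℝ), ∃ c > (0 : ℝ),
  perimeter (closedBall (0 : V (m + 2)) 1) + ENNReal.ofReal c ≤
    ENNReal.ofReal (∫ p in closedBall (0 : V (m + 2)) 1, dv m ε p)

/-- The final statement in dimension `m + 2 ≥ 3`. -/
def StmtFinal (m : ℕ) : Prop :=
  ∃ (E : Set (V (m + 2))) (u : ℕ → V (m + 2)), IsCompact E ∧ (interior E).Nonempty ∧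
    perimeter E ≠ ⊤ ∧ volume (closedBall (0 : V (m + 2)) 1) = volume E ∧ (∀ i, ‖u i‖ = 1) ∧
    Tendsto (fun i => hausdorffDist (iter u E i) (closedBall 0 1)) atTop (𝓝 0) ∧
    ∃ c > (0 : ℝ), ∀ᶠ i in atTop,
      perimeter (closedBall (0 : V (m + 2)) 1) + ENNReal.ofReal c ≤ perimeter (iter u E i)

end Pool.Agent.R921.SP
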