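import Pool.Agent.R921.SP.B

/-!
Basic properties of planar Steiner symmetrization (SP-A).
-/

open MeasureTheory Metric Set Filter Topology
open scoped ENNReal

namespace Pool.Agent.R921.SP

lemma convex_steiner {K : Set Pl} (hK : IsCompact K) (hc : Convex ℝ K) {u : Pl} (hu : ‖u‖ = 1) :
    Convex ℝ (steiner u K) := by
  intro p hp q hq a b ha hb hab
  rw [mem_steiner_iff hK hc hu] at hp hq ⊢
  obtain ⟨s, t, hs, ht, h⟩ := hp
  obtain ⟨s', t', hs', ht', h'⟩ := hq
  refine ⟨a * s + b * s', a * t + b * t', ?_, ?_, ?_⟩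
  · have := hc hs hs' ha hb hab
    convert this using 1
    module
  · have := hc ht ht' ha hb hab
    convert this using 1
    module
  · rw [inner_add_left, real_inner_smul_left, real_inner_smul_left]
    have h1 : |a * inner ℝ p u + b * inner ℝ q u| ≤ a * |inner ℝ p u| + b * |inner ℝ q u| := by
      refine (abs_add_le _ _).trans ?_
      rw [abs_mul, abs_mul, abs_of_nonneg ha, abs_of_nonneg hb]
    nlinarith [mul_le_mul_of_nonneg_left h ha, mul_le_mul_of_nonneg_left h' hb]

lemma isCompact_steiner {K : Set Pl} (hK : IsCompact K) (hc : Convex ℝ K) {u : Pl}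
    (hu : ‖u‖ = 1) : IsCompact (steiner u K) := by
  obtain ⟨R, hR⟩ := hK.isBounded.exists_norm_le
  set w := perp u with hw
  have huu : inner ℝ u u = (1 : ℝ) := by rw [real_inner_self_eq_norm_sq, hu]; norm_num
  have hwu : inner ℝ w u = 0 := by rw [real_inner_comm]; exact inner_perp u
  have huw : inner ℝ u w = 0 := inner_perp u
  have hww : inner ℝ w w = (1 : ℝ) := by
    rw [real_inner_self_eq_norm_sq, hw, norm_perp, hu]; norm_num
  have hiu : ∀ x ∈ K, |inner ℝ x u| ≤ R := by
    intro x hx
    have := abs_real_inner_le_norm x u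
    rw [hu, mul_one] at this
    exact this.trans (hR x hx)
  set Q : Set (Pl × Pl × ℝ) := (K ×ˢ K ×ˢ Icc (-R) R) ∩
    {q | inner ℝ q.1 w = inner ℝ q.2.1 w ∧ 2 * |q.2.2| ≤ inner ℝ q.1 u - inner ℝ q.2.1 u} with hQ
  have hQc : IsCompact Q := by
    refine (hK.prod (hK.prod isCompact_Icc)).inter_right ?_
    have c1 : Continuous fun q : Pl × Pl × ℝ => inner ℝ q.1 w := by fun_prop
    have c2 : Continuous fun q : Pl × Pl × ℝ => inner ℝ q.2.1 w := by fun_prop
    have c3 : Continuous fun q : Pl × Pl × ℝ => 2 * |q.2.2| := by fun_prop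
    have c4 : Continuous fun q : Pl × Pl × ℝ => inner ℝ q.1 u - inner ℝ q.2.1 u := by fun_prop
    exact (isClosed_eq c1 c2).inter (isClosed_le c3 c4)
  have himg : steiner u K = (fun q : Pl × Pl × ℝ => inner ℝ q.1 w • w + q.2.2 • u) '' Q := by
    ext p
    rw [mem_steiner_iff hK hc hu]
    constructor
    · rintro ⟨s, t, hs, ht, h⟩
      have e1 : ∀ s : ℝ, inner ℝ (p + s • u) w = inner ℝ p w := by
        intro s
        rw [inner_add_left, real_inner_smul_left, huw]; ring
      have e2 : ∀ s : ℝ, inner ℝ (p + s • u) u = inner ℝ p u + s := by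
        intro s
        rw [inner_add_left, real_inner_smul_left, huu]; ring
      refine ⟨(p + s • u, p + t • u, inner ℝ p u), ⟨⟨hs, ht, ?_⟩, ?_, ?_⟩, ?_⟩
      · have h1 := abs_le.1 (hiu _ hs)
        have h2 := abs_le.1 (hiu _ ht)
        rw [e2] at h1 h2
        have h3 := abs_le.1 (show |inner ℝ p u| ≤ R by linarith [h1.2, h2.1])
        exact h3
      · simp only [e1]
      · simp only [e2]; linarith
      · simp only [e1]
        exact (expand hu p).symm
    · rintro ⟨⟨x, y, c⟩, ⟨⟨hx, hy, -⟩, h1, h2⟩, rfl⟩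
      simp only at hx hy h1 h2 ⊢
      set p := inner ℝ x w • w + c • u with hp
      have hpw : inner ℝ p w = inner ℝ x w := by
        rw [hp, inner_add_left, real_inner_smul_left, real_inner_smul_left, hww, huw]; ring
      have hpu : inner ℝ p u = c := by
        rw [hp, inner_add_left, real_inner_smul_left, real_inner_smul_left, huu, hwu]; ring
      refine ⟨inner ℝ x u - inner ℝ p u, inner ℝ y u - inner ℝ p u, ?_, ?_, ?_⟩
      · rw [← on_line hu (x := x) (p := p) hpw.symm]; exact hx
      · rw [← on_line hu (x := y) (p := p) (by rw [← hw, hpw, h1])]; exact hy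
      · rw [hpu]; linarith
  rw [himg]
  exact hQc.image (by fun_prop)

/-- The coordinates `(a, b) ↦ a w + b u` preserve the area. -/
lemma measurePreserving_coord {u : Pl} (hu : ‖u‖ = 1) :
    MeasurePreserving (fun q : ℝ × ℝ => q.1 • perp u + q.2 • u) volume volume := by
  have hon : Orthonormal ℝ ![perp u, u] := by
    rw [orthonormal_iff_ite]
    intro i j
    have huu : inner ℝ u u = (1 : ℝ) := by rw [real_inner_self_eq_norm_sq, hu]; norm_num
    have hww : inner ℝ (perp u) (perp u) = (1 : ℝ) := by
      rw [real_inner_self_eq_norm_sq, norm_perp, hu]; norm_num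
    have hwu : inner ℝ (perp u) u = (0 : ℝ) := by rw [real_inner_comm]; exact inner_perp u
    fin_cases i <;> fin_cases j
    · simpa using Or.inl ((norm_perp u).trans hu)
    · simp [hwu]
    · simp [inner_perp]
    · simpa using Or.inl hu
  set b : OrthonormalBasis (Fin 2) ℝ Pl := OrthonormalBasis.mk hon (by
    rw [Matrix.range_cons, Matrix.range_cons, Matrix.range_empty]
    intro x _
    rw [expand hu x]
    refine Submodule.add_mem _ (Submodule.smul_mem _ _ (Submodule.subset_span (by simp)))
      (Submodule.smul_mem _ _ (Submodule.subset_span (by simp)))) with hb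
  have h1 := b.measurePreserving_repr_symm
  have h2 : MeasurePreserving (WithLp.toLp 2 : (Fin 2 → ℝ) → Pl) volume volume :=
    PiLp.volume_preserving_toLp (Fin 2)
  have h3 := (volume_preserving_finTwoArrow ℝ).symm _
  have h4 := h1.comp (h2.comp h3)
  convert h4 using 1
  ext q i
  simp only [Function.comp]
  rw [← b.sum_repr_symm]
  simp [Fin.sum_univ_two, hb, MeasurableEquiv.finTwoArrow]

lemma volume_steiner {K : Set Pl} (hK : IsCompact K) (hc : Convex ℝ K) {u : Pl} (hu : ‖u‖ = 1) :
    volume (steiner u K) = volume K := by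
  have hmp := measurePreserving_coord hu
  have hmS := (isCompact_steiner hK hc hu).isClosed.measurableSet
  have hmK := hK.isClosed.measurableSet
  rw [← hmp.measure_preimage hmS.nullMeasurableSet, ← hmp.measure_preimage hmK.nullMeasurableSet,
    Measure.volume_eq_prod, Measure.prod_apply (hmp.measurable hmS),
    Measure.prod_apply (hmp.measurable hmK)]
  refine lintegral_congr fun a => ?_
  set p := a • perp u with hp
  have hS : Prod.mk a ⁻¹' ((fun q : ℝ × ℝ => q.1 • perp u + q.2 • u) ⁻¹' steiner u K) =
      {b : ℝ | p + b • u ∈ steiner u K} := rfl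
  have hK' : Prod.mk a ⁻¹' ((fun q : ℝ × ℝ => q.1 • perp u + q.2 • u) ⁻¹' K) =
      {b : ℝ | p + b • u ∈ K} := rfl
  rw [hS, hK']
  by_cases hne : ∃ t : ℝ, p + t • u ∈ K
  · obtain ⟨s, t, hs, ht, hts, hvol⟩ := exists_endpoints hK hc hu hne
    rw [hvol]
    have hset : {b : ℝ | p + b • u ∈ steiner u K} = Icc (-((s - t) / 2)) ((s - t) / 2) := by
      ext b
      have hin : inner ℝ (p + b • u) u = b := by
        rw [hp, inner_add_left, real_inner_smul_left, real_inner_smul_left,
          real_inner_self_eq_norm_sq, hu, real_inner_comm u (perp u), inner_perp]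
        ring
      have hsec : {τ : ℝ | (p + b • u) + τ • u ∈ K} =
          (fun τ => τ + b) ⁻¹' {τ : ℝ | p + τ • u ∈ K} := by
        ext τ
        simp only [mem_ofPred_eq, mem_preimage]
        have : p + b • u + τ • u = p + (τ + b) • u := by module
        rw [this]
      simp only [steiner, mem_ofPred_eq, hin]
      rw [hsec, measure_preimage_add_right, hvol,
        ENNReal.ofReal_le_ofReal_iff (sub_nonneg.2 hts)]
      constructor
      · rintro ⟨-, h⟩
        exact abs_le.1 (by linarith)
      · intro h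
        have h := abs_le.2 h
        refine ⟨⟨s - b, ?_⟩, by linarith⟩
        have : p + b • u + (s - b) • u = p + s • u := by module
        rw [this]; exact hs
    rw [hset, Real.volume_Icc]
    congr 1; ring
  · have h1 : {b : ℝ | p + b • u ∈ K} = ∅ := by
      rw [Set.eq_empty_iff_forall_notMem]
      exact fun b hb => hne ⟨b, hb⟩
    have h2 : {b : ℝ | p + b • u ∈ steiner u K} = ∅ := by
      rw [Set.eq_empty_iff_forall_notMem]
      rintro b ⟨⟨t, ht⟩, -⟩
      apply hne
      refine ⟨b + t, ?_⟩
      have : p + (b + t) • u = p + b • u + t • u := by module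
      rw [this]; exact ht
    rw [h1, h2]

theorem stmtA : StmtA := fun _ _ hu hK hc =>
  ⟨isCompact_steiner hK hc hu, convex_steiner hK hc hu, volume_steiner hK hc hu⟩

end Pool.Agent.R921.SP
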