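import Pool.Agent.R921.SP.Lift

/-!
Finite perimeter of the bodies (SP-F).
-/

open MeasureTheory Metric Set Filter Topology
open scoped ENNReal

namespace Pool.Agent.R921.SP

/-- The fundamental theorem of calculus on a bounded interval of any type. -/
lemma oneD {S : Set ℝ} (hS : S.OrdConnected) {a b : ℝ} (hab : S ⊆ Icc a b) {f f' : ℝ → ℝ}
    (hf : ∀ t, HasDerivAt f (f' t) t) (hf' : Continuous f') (hb : ∀ t, |f t| ≤ 1) :
    |∫ t in S, f' t| ≤ 2 := by
  rcases S.eq_empty_or_nonempty with rfl | hne
  · simp
  have hbb : BddBelow S := ⟨a, fun x hx => (hab hx).1⟩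
  have hba : BddAbove S := ⟨b, fun x hx => (hab hx).2⟩
  have h1 : S ⊆ Icc (sInf S) (sSup S) := fun x hx => ⟨csInf_le hbb hx, le_csSup hba hx⟩
  have h2 : Ioo (sInf S) (sSup S) ⊆ S := by
    intro x hx
    obtain ⟨y, hy, hyx⟩ := exists_lt_of_csInf_lt hne hx.1
    obtain ⟨z, hz, hxz⟩ := exists_lt_of_lt_csSup hne hx.2
    exact hS.out hy hz ⟨hyx.le, hxz.le⟩
  have h3 : S =ᵐ[volume] Icc (sInf S) (sSup S) := by
    refine (LE.le.eventuallyLE h1).antisymm ?_
    exact (Ioo_ae_eq_Icc (μ := (volume : Measure ℝ))).symm.le.trans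
      (LE.le.eventuallyLE h2)
  have hle : sInf S ≤ sSup S := by
    obtain ⟨x, hx⟩ := hne
    exact (h1 hx).1.trans (h1 hx).2
  rw [setIntegral_congr_set h3, integral_Icc_eq_integral_Ioc,
    ← intervalIntegral.integral_of_le hle,
    intervalIntegral.integral_eq_sub_of_hasDerivAt (fun t _ => hf t)
      (hf'.intervalIntegrable _ _)]
  have e1 := abs_le.1 (hb (sSup S))
  have e2 := abs_le.1 (hb (sInf S))
  rw [abs_le]
  constructor <;> linarith [e1.1, e1.2, e2.1, e2.2]

/-- the coordinate `i` together with the other coordinates -/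
noncomputable def spl {n : ℕ} (i : Fin (n + 1)) : ℝ × (Fin n → ℝ) ≃ᵐ V (n + 1) :=
  (MeasurableEquiv.piFinSuccAbove (fun _ => ℝ) i).symm.trans (MeasurableEquiv.toLp 2 _)

lemma spl_apply {n : ℕ} (i : Fin (n + 1)) (q : ℝ × (Fin n → ℝ)) (j : Fin (n + 1)) :
    spl i q j = i.insertNth (α := fun _ => ℝ) q.1 q.2 j := rfl

lemma spl_mp {n : ℕ} (i : Fin (n + 1)) : MeasurePreserving (spl i) volume volume :=
  (PiLp.volume_preserving_toLp (Fin (n + 1))).comp
    ((volume_preserving_piFinSuccAbove (fun _ => ℝ) i).symm _)

lemma spl_line {n : ℕ} (i : Fin (n + 1)) (t : ℝ) (y : Fin n → ℝ) :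
    spl i (t, y) = spl i (0, y) + t • EuclideanSpace.single i (1 : ℝ) := by
  ext j
  rw [PiLp.add_apply, PiLp.smul_apply, spl_apply, spl_apply]
  rcases eq_or_ne j i with rfl | h
  · simp
  · obtain ⟨k, rfl⟩ := Fin.exists_succAbove_eq h
    simp

/-- one coordinate -/
lemma coord_bound {n : ℕ} {E : Set (V (n + 1))} (hE : MeasurableSet E) {R : ℝ}
    (hR : ∀ p ∈ E, ∀ j, |p j| ≤ R) (i : Fin (n + 1))
    (hsec : ∀ q : V (n + 1), {t : ℝ | q + t • EuclideanSpace.single i (1 : ℝ) ∈ E}.OrdConnected)
    {g : V (n + 1) → ℝ} (hg : ContDiff ℝ 1 g) (hc : HasCompactSupport g)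
    (hb : ∀ x, |g x| ≤ 1) :
    |∫ x in E, fderiv ℝ g x (EuclideanSpace.single i 1)| ≤
      2 * (volume (Icc (fun _ => -R) (fun _ => R) : Set (Fin n → ℝ))).toReal := by
  set e : V (n + 1) := EuclideanSpace.single i 1 with he
  set G : V (n + 1) → ℝ := fun x => fderiv ℝ g x e with hG
  have hGc : Continuous G := (hg.continuous_fderiv one_ne_zero).clm_apply continuous_const
  have hGs : HasCompactSupport G := hc.fderiv_apply ℝ e
  have hGi : Integrable G := hGc.integrable_of_hasCompactSupport hGs
  have hint : Integrable (E.indicator G) := hGi.indicator hE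
  rw [← integral_indicator hE, ← (spl_mp i).integral_comp' (E.indicator G),
    Measure.volume_eq_prod, integral_prod_symm]
  · set B : Set (Fin n → ℝ) := Icc (fun _ => -R) (fun _ => R) with hB
    have hout : ∀ y, y ∉ B → ∫ t : ℝ, E.indicator G (spl i (t, y)) = 0 := by
      intro y hy
      have : (fun t : ℝ => E.indicator G (spl i (t, y))) = fun _ => 0 := by
        funext t
        rw [indicator_of_notMem]
        intro hmem
        apply hy
        have h := hR _ hmem
        constructor
        · intro j
          have := h (i.succAbove j)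
          rw [spl_apply, Fin.insertNth_apply_succAbove] at this
          exact (abs_le.1 this).1
        · intro j
          have := h (i.succAbove j)
          rw [spl_apply, Fin.insertNth_apply_succAbove] at this
          exact (abs_le.1 this).2
      rw [this, integral_zero]
    rw [← setIntegral_eq_integral_of_forall_compl_eq_zero (s := B) hout]
    have hfin : volume B < ⊤ := isCompact_Icc.measure_lt_top
    have hbd := norm_setIntegral_le_of_norm_le_const (f := fun y =>
      ∫ t : ℝ, E.indicator G (spl i (t, y))) (C := 2) (s := B) (μ := volume) hfin (fun y _ => ?_)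
    · rw [Real.norm_eq_abs] at hbd
      exact hbd
    · rw [Real.norm_eq_abs]
      have hmS : MeasurableSet {t : ℝ | spl i (t, y) ∈ E} :=
        ((spl i).measurable.comp (by fun_prop : Measurable fun t : ℝ => (t, y))) hE
      have h1 : (fun t : ℝ => E.indicator G (spl i (t, y))) =
          {t : ℝ | spl i (t, y) ∈ E}.indicator fun t => G (spl i (0, y) + t • e) := by
        funext t
        by_cases ht : spl i (t, y) ∈ E
        · rw [indicator_of_mem ht, indicator_of_mem (show t ∈ {t : ℝ | spl i (t, y) ∈ E} from ht),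
            spl_line]
        · rw [indicator_of_notMem ht,
            indicator_of_notMem (show t ∉ {t : ℝ | spl i (t, y) ∈ E} from ht)]
      rw [h1, integral_indicator hmS]
      have hoc : {t : ℝ | spl i (t, y) ∈ E}.OrdConnected := by
        have hset : {t : ℝ | spl i (t, y) ∈ E} = {t : ℝ | spl i (0, y) + t • e ∈ E} := by
          ext t
          rw [mem_ofPred_eq, mem_ofPred_eq, spl_line]
        rw [hset]
        exact hsec (spl i (0, y))
      refine oneD hoc (a := -R) (b := R) ?_ (f := fun t => g (spl i (0, y) + t • e)) ?_ ?_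
        fun t => hb _
      · intro t ht
        have := hR _ ht i
        rw [spl_apply, Fin.insertNth_apply_same] at this
        exact abs_le.1 this
      · intro t
        have h2 : HasDerivAt (fun t : ℝ => spl i (0, y) + t • e) e t := by
          simpa using ((hasDerivAt_id t).smul_const e).const_add (spl i (0, y))
        exact ((hg.differentiable one_ne_zero) _).hasFDerivAt.comp_hasDerivAt t h2
      · exact hGc.comp (by fun_prop)
  · exact ((spl_mp i).integrable_comp_emb (spl i).measurableEmbedding).2 hint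

lemma px_single_succ {m : ℕ} (j : Fin m) :
    px (EuclideanSpace.single j.succ.succ (1 : ℝ) : V (m + 2)) = 0 := by
  ext k
  fin_cases k
  · simp [px]
  · simp only [px]
    simp [Fin.ext_iff]

lemma pz_single_zero {m : ℕ} : pz (EuclideanSpace.single 0 (1 : ℝ) : V (m + 2)) = 0 := by
  ext k
  simp [pz]

lemma pz_single_one {m : ℕ} : pz (EuclideanSpace.single 1 (1 : ℝ) : V (m + 2)) = 0 := by
  ext k
  simp [pz, Fin.ext_iff]

lemma sec_lift {m N : ℕ} {K : ℝ → Set Pl} (hG : Good N K) (q e : V (m + 2))
    (he : px e = 0 ∨ pz e = 0) : {t : ℝ | q + t • e ∈ lift m K}.OrdConnected := by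
  rcases he with he | he
  · refine ordConnected_def.2 fun s hs t ht τ hτ => ?_
    simp only [lift, mem_ofPred_eq, px_add, px_smul, he, smul_zero, add_zero, pz_add,
      pz_smul] at hs ht ⊢
    have hcv : ConvexOn ℝ univ fun t : ℝ => ‖pz q + t • pz e‖ := by
      refine ⟨convex_univ, fun x _ y _ a b ha hb hab => ?_⟩
      have h1 : pz q + (a • x + b • y) • pz e = a • (pz q + x • pz e) + b • (pz q + y • pz e) := by
        have : pz q = (a + b) • pz q := by rw [hab, one_smul]
        conv_lhs => rw [this]
        simp only [smul_eq_mul]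
        module
      simp only
      rw [h1]
      refine (norm_add_le _ _).trans ?_
      rw [norm_smul, norm_smul, Real.norm_of_nonneg ha, Real.norm_of_nonneg hb]
      rfl
    have hle : ‖pz q + τ • pz e‖ ≤ max ‖pz q + s • pz e‖ ‖pz q + t • pz e‖ :=
      hcv.le_max_of_mem_Icc (mem_univ _) (mem_univ _) hτ
    refine hG.anti hle ?_
    rcases max_choice ‖pz q + s • pz e‖ ‖pz q + t • pz e‖ with h | h <;> rw [h]
    · exact hs
    · exact ht
  · have : {t : ℝ | q + t • e ∈ lift m K} = {t : ℝ | px q + t • px e ∈ K ‖pz q‖} := by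
      ext t
      simp only [lift, mem_ofPred_eq, px_add, px_smul, pz_add, pz_smul, he, smul_zero, add_zero]
    rw [this]
    exact (convex_sec (hG.convex _) _ _).ordConnected

theorem stmtF : StmtF := by
  intro m N K _ hG
  have hcomp := isCompact_lift (m := m) hG
  obtain ⟨R, hR⟩ := hcomp.isBounded.exists_norm_le
  have hR' : ∀ p ∈ lift m K, ∀ j, |p j| ≤ R := fun p hp j =>
    (by simpa using PiLp.norm_apply_le p j : |p j| ≤ ‖p‖).trans (hR p hp)
  set C : ℝ := 2 * (volume (Icc (fun _ => -R) (fun _ => R) : Set (Fin (m + 1) → ℝ))).toReal with hC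
  have hle : perimeter (lift m K) ≤ ENNReal.ofReal ((m + 2 : ℕ) * C) := by
    refine iSup_le fun φ => ENNReal.ofReal_le_ofReal ?_
    obtain ⟨φ, hφ1, hφ2, hφ3⟩ := φ
    have hcoord : ∀ i : Fin (m + 2), ContDiff ℝ 1 fun x => φ x i := fun i => by fun_prop
    have hcs : ∀ i : Fin (m + 2), HasCompactSupport fun x => φ x i := fun i => by
      refine hφ2.comp_left (g := fun y : V (m + 2) => y i) ?_
      simp
    have hfd : ∀ i x, fderiv ℝ (fun x => φ x i) x (EuclideanSpace.single i 1) =
        (fderiv ℝ φ x (EuclideanSpace.single i 1)) i := by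
      intro i x
      have h1 : HasFDerivAt (fun x => φ x i)
          ((EuclideanSpace.proj i : V (m + 2) →L[ℝ] ℝ).comp (fderiv ℝ φ x)) x :=
        (EuclideanSpace.proj i : V (m + 2) →L[ℝ] ℝ).hasFDerivAt.comp x
          ((hφ1.differentiable one_ne_zero) x).hasFDerivAt
      rw [h1.fderiv]
      rfl
    have hint : ∀ i : Fin (m + 2), IntegrableOn
        (fun x => (fderiv ℝ φ x (EuclideanSpace.single i 1)) i) (lift m K) := by
      intro i
      have hcont : Continuous fun x => (fderiv ℝ φ x (EuclideanSpace.single i 1)) i := by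
        have := (hφ1.continuous_fderiv one_ne_zero).clm_apply
          (continuous_const (y := (EuclideanSpace.single i (1 : ℝ) : V (m + 2))))
        fun_prop
      exact hcont.continuousOn.integrableOn_compact hcomp
    have heq : ∫ x in lift m K, divg φ x = ∑ i, ∫ x in lift m K,
        (fderiv ℝ φ x (EuclideanSpace.single i 1)) i :=
      integral_finsetSum _ fun i _ => hint i
    simp only
    rw [heq]
    have hbound : ∀ i ∈ (Finset.univ : Finset (Fin (m + 2))), ∫ x in lift m K,
        (fderiv ℝ φ x (EuclideanSpace.single i 1)) i ≤ C := by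
      intro i _
      simp only [← hfd]
      refine (le_abs_self _).trans (coord_bound (isClosed_lift hG).measurableSet hR' i ?_
        (hcoord i) (hcs i) fun x => ?_)
      · intro q
        apply sec_lift hG
        refine Fin.cases ?_ (fun j => Fin.cases ?_ (fun j => ?_) j) i
        · exact Or.inr pz_single_zero
        · exact Or.inr pz_single_one
        · exact Or.inl (px_single_succ j)
      · exact (by simpa using PiLp.norm_apply_le (φ x) i : |φ x i| ≤ ‖φ x‖).trans (hφ3 x)
    refine (Finset.sum_le_sum hbound).trans ?_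
    simp
  exact ne_top_of_le_ne_top ENNReal.ofReal_ne_top hle

end Pool.Agent.R921.SP
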