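import Pool.Agent.R921.SP.Lift

/-!
Fubini in `V (m + 2) = Pl × V m` and the volume of the bodies.
-/

open MeasureTheory Metric Set Filter Topology
open scoped ENNReal

namespace Pool.Agent.R921.SP

variable {m : ℕ}

/-- `p ↦ (px p, pz p)` as a measurable equivalence. -/
noncomputable def splitE (m : ℕ) : V (m + 2) ≃ᵐ Pl × V m :=
  ((MeasurableEquiv.toLp 2 (Fin (m + 2) → ℝ)).symm.trans
    (MeasurableEquiv.piFinSuccAbove (fun _ => ℝ) 0)).trans
    (((MeasurableEquiv.refl ℝ).prodCongr (MeasurableEquiv.piFinSuccAbove (fun _ => ℝ) 0)).trans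
      (MeasurableEquiv.prodAssoc.symm.trans
        (((MeasurableEquiv.finTwoArrow (α := ℝ)).symm.trans
          (MeasurableEquiv.toLp 2 (Fin 2 → ℝ))).prodCongr (MeasurableEquiv.toLp 2 (Fin m → ℝ)))))

lemma splitE_apply (p : V (m + 2)) : splitE m p = (px p, pz p) := by
  refine Prod.ext ?_ ?_
  · ext i
    fin_cases i <;> rfl
  · ext i
    rfl

lemma splitE_mp : MeasurePreserving (splitE m) volume volume := by
  have h1 : MeasurePreserving (MeasurableEquiv.toLp 2 (Fin (m + 2) → ℝ)).symm volume volume :=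
    PiLp.volume_preserving_ofLp (Fin (m + 2))
  have h2 := volume_preserving_piFinSuccAbove (fun _ : Fin (m + 2) => ℝ) 0
  have h3 := volume_preserving_piFinSuccAbove (fun _ : Fin (m + 1) => ℝ) 0
  have h4 := (MeasurePreserving.id (volume : Measure ℝ)).prod h3
  have h5 : MeasurePreserving (MeasurableEquiv.prodAssoc.symm :
      ℝ × (ℝ × (Fin m → ℝ)) ≃ᵐ (ℝ × ℝ) × (Fin m → ℝ)) volume volume :=
    (measurePreserving_prodAssoc volume volume volume).symm _
  have h6 : MeasurePreserving ((MeasurableEquiv.finTwoArrow (α := ℝ)).symm.trans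
      (MeasurableEquiv.toLp 2 (Fin 2 → ℝ))) volume volume :=
    (PiLp.volume_preserving_toLp (Fin 2)).comp ((volume_preserving_finTwoArrow ℝ).symm _)
  have h7 := h6.prod (PiLp.volume_preserving_toLp (Fin m))
  exact h7.comp (h5.comp (h4.comp (h2.comp h1)))

lemma vol_lift {K : ℝ → Set Pl} (hK : MeasurableSet (lift m K)) :
    volume (lift m K) = ∫⁻ z : V m, volume (K ‖z‖) := by
  have h1 : lift m K = splitE m ⁻¹' {q | q.1 ∈ K ‖q.2‖} := by
    ext p
    simp only [lift, mem_ofPred_eq, mem_preimage, splitE_apply]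
  have h2 : MeasurableSet {q : Pl × V m | q.1 ∈ K ‖q.2‖} := by
    have : {q : Pl × V m | q.1 ∈ K ‖q.2‖} = (splitE m).symm ⁻¹' lift m K := by
      rw [h1, ← preimage_comp]
      simp
    rw [this]
    exact (splitE m).symm.measurable hK
  rw [h1, splitE_mp.measure_preimage h2.nullMeasurableSet, Measure.volume_eq_prod,
    Measure.prod_apply_symm h2]
  rfl

end Pool.Agent.R921.SP
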