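import Pool.Agent.R921.SP.A
import Pool.Agent.R921.SP.F
import Pool.Agent.R921.SP.Vol
import Pool.Agent.R515.SP.C

/-!
Assembly.
-/

open MeasureTheory Metric Set Filter Topology
open scoped ENNReal

namespace Pool.Agent.R921.SP

variable {m : ℕ}

/-- the disc family -/
def disc (r : ℝ) : Set Pl := {x | ‖x‖ ^ 2 + r ^ 2 ≤ 1}

lemma lift_disc : lift m disc = closedBall (0 : V (m + 2)) 1 := by
  ext p
  rw [mem_closedBall_zero_iff]
  simp only [lift, disc, mem_ofPred_eq]
  rw [← norm_sq_split]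
  constructor
  · intro h
    nlinarith [norm_nonneg p]
  · intro h
    nlinarith [norm_nonneg p]

lemma disc_eq {r : ℝ} (hr : r ∈ Icc (0 : ℝ) 1) : disc r = closedBall (0 : Pl) √(1 - r ^ 2) := by
  ext x
  rw [mem_closedBall_zero_iff]
  simp only [disc, mem_ofPred_eq]
  have h1 : 0 ≤ 1 - r ^ 2 := by nlinarith [hr.1, hr.2]
  constructor
  · intro h
    exact Real.le_sqrt_of_sq_le (by linarith)
  · intro h
    have := Real.sq_sqrt h1
    nlinarith [norm_nonneg x, Real.sqrt_nonneg (1 - r ^ 2)]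

lemma volume_disc {r : ℝ} (hr : r ∈ Icc (0 : ℝ) 1) :
    volume (disc r) = ENNReal.ofReal (Real.pi * (1 - r ^ 2)) := by
  have h1 : 0 ≤ 1 - r ^ 2 := by nlinarith [hr.1, hr.2]
  rw [disc_eq hr, EuclideanSpace.volume_closedBall_fin_two, ← ENNReal.ofReal_pow
    (Real.sqrt_nonneg _), Real.sq_sqrt h1]
  rw [← ENNReal.ofReal_mul h1, mul_comm]

lemma volume_body {N : ℕ} {K : ℝ → Set Pl} (hG : Good N K) :
    volume (lift m K) = volume (closedBall (0 : V (m + 2)) 1) := by
  rw [← lift_disc, vol_lift (isClosed_lift hG).measurableSet,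
    vol_lift (by rw [lift_disc]; exact isClosed_closedBall.measurableSet)]
  refine lintegral_congr fun z => ?_
  by_cases h : ‖z‖ ≤ 1
  · rw [hG.area _ ⟨norm_nonneg z, h⟩, volume_disc ⟨norm_nonneg z, h⟩]
  · push Not at h
    have h2 : disc ‖z‖ = ∅ := by
      rw [Set.eq_empty_iff_forall_notMem]
      intro x hx
      simp only [disc, mem_ofPred_eq] at hx
      nlinarith [norm_nonneg x]
    rw [hG.empty _ h, h2]

lemma good_iter {K : ℝ → Set Pl} {w : ℕ → Pl} (hw : ∀ i, ‖w i‖ = 1) (hG : Good 1 K) (i : ℕ) :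
    ∃ N, Good N fun r => iter w (K r) i := by
  induction i with
  | zero => exact ⟨1, hG⟩
  | succ i ih =>
    obtain ⟨N, hN⟩ := ih
    exact ⟨2 * N, stmtB stmtA N _ _ hN (hw i)⟩

lemma interior_body {N : ℕ} {K : ℝ → Set Pl} (hG : Good N K) :
    (interior (lift m K)).Nonempty := by
  have hne : (interior (K (1 / 2))).Nonempty := by
    by_contra hcon
    rw [Set.not_nonempty_iff_eq_empty] at hcon
    have h1 := (hG.convex (1 / 2)).addHaar_frontier (volume : Measure Pl)
    rw [frontier, hcon, sdiff_empty, (hG.compact _).isClosed.closure_eq,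
      hG.area _ (by norm_num)] at h1
    rw [ENNReal.ofReal_eq_zero] at h1
    nlinarith [Real.pi_pos]
  obtain ⟨x, hx⟩ := hne
  have hopen : IsOpen ({p : V (m + 2) | px p ∈ interior (K (1 / 2))} ∩
      {p : V (m + 2) | ‖pz p‖ < 1 / 2}) :=
    (isOpen_interior.preimage continuous_px).inter
      (isOpen_lt continuous_pz.norm continuous_const)
  refine ⟨ix x, mem_interior.2 ⟨_, ?_, hopen, ?_, ?_⟩⟩
  · rintro p ⟨hp1, hp2⟩
    exact hG.anti (le_of_lt hp2) (interior_subset hp1)
  · simpa [px_ix] using hx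
  · simp [pz_ix]

/-- the bodies are contained in slightly larger balls -/
lemma body_subset {K : ℝ → Set Pl} (hG : Good 1 K) {w : ℕ → Pl}
    (hw2 : ∀ R > (0 : ℝ), ∀ ε > (0 : ℝ), ∃ i0 : ℕ,
      ∀ i ≥ i0, ∀ (K : Set Pl) (a : ℝ), IsCompact K → Convex ℝ K → K ⊆ closedBall 0 R → 0 ≤ a →
        volume K = ENNReal.ofReal (Real.pi * a ^ 2) → iter w K i ⊆ closedBall 0 (a + ε))
    {ε : ℝ} (hε : 0 < ε) (hw : ∀ i, ‖w i‖ = 1) :
    ∃ i0 : ℕ, ∀ i ≥ i0, lift m (fun r => iter w (K r) i) ⊆ closedBall (0 : V (m + 2)) (1 + ε) := by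
  obtain ⟨R, hR⟩ := (hG.compact 0).isBounded.exists_norm_le
  obtain ⟨i0, hi0⟩ := hw2 (|R| + 1) (by positivity) ε hε
  refine ⟨i0, fun i hi p hp => ?_⟩
  obtain ⟨N, hN⟩ := good_iter hw hG i
  have hz : ‖pz p‖ ≤ 1 := norm_pz_le hN hp
  have hz0 := norm_nonneg (pz p)
  have h1 : 0 ≤ 1 - ‖pz p‖ ^ 2 := by nlinarith
  have hp' : px p ∈ iter w (K ‖pz p‖) i := hp
  have h2 := hi0 i hi (K ‖pz p‖) √(1 - ‖pz p‖ ^ 2) (hG.compact _) (hG.convex _) (fun x hx => by
    rw [mem_closedBall_zero_iff]
    have := hR _ (hG.anti hz0 hx)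
    linarith [le_abs_self R]) (Real.sqrt_nonneg _) (by
      rw [Real.sq_sqrt h1]
      exact hG.area _ ⟨hz0, hz⟩) hp'
  rw [mem_closedBall_zero_iff] at h2 ⊢
  have h3 := norm_sq_split p
  have h4 := Real.sq_sqrt h1
  have h5 : √(1 - ‖pz p‖ ^ 2) ≤ 1 := Real.sqrt_le_one.2 (by nlinarith)
  have h6 := Real.sqrt_nonneg (1 - ‖pz p‖ ^ 2)
  refine (sq_le_sq₀ (norm_nonneg _) (by positivity)).1 ?_
  rw [h3]
  nlinarith [norm_nonneg (px p)]

lemma volume_ball_eq (ε : ℝ) (hε : 0 ≤ ε) :
    volume (closedBall (0 : V (m + 2)) (1 + ε)) =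
      ENNReal.ofReal ((1 + ε) ^ (m + 2)) * volume (closedBall (0 : V (m + 2)) 1) := by
  rw [Measure.addHaar_closedBall _ _ (by positivity), Measure.addHaar_closedBall _ _ zero_le_one,
    finrank_euclideanSpace_fin]
  simp

lemma tendsto_shell : Tendsto (fun ε : ℝ => volume.real (closedBall (0 : V (m + 2)) (1 + |ε|)) -
    volume.real (closedBall (0 : V (m + 2)) 1)) (𝓝 0) (𝓝 0) := by
  have h : (fun ε : ℝ => volume.real (closedBall (0 : V (m + 2)) (1 + |ε|)) -
      volume.real (closedBall (0 : V (m + 2)) 1)) = fun ε : ℝ => ((1 + |ε|) ^ (m + 2) - 1) *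
        volume.real (closedBall (0 : V (m + 2)) 1) := by
    funext ε
    rw [measureReal_def, volume_ball_eq _ (abs_nonneg ε), ENNReal.toReal_mul,
      ENNReal.toReal_ofReal (by positivity), measureReal_def]
    ring
  rw [h]
  have hc : Continuous fun ε : ℝ => ((1 + |ε|) ^ (m + 2) - 1) *
      volume.real (closedBall (0 : V (m + 2)) 1) := by fun_prop
  have := hc.tendsto 0
  simpa using this

/-- The symmetric difference is small. -/
lemma symm_small {E : Set (V (m + 2))} (hE : MeasurableSet E)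
    (hv : volume E = volume (closedBall (0 : V (m + 2)) 1)) {ε : ℝ} (hε : 0 ≤ ε)
    (hsub : E ⊆ closedBall (0 : V (m + 2)) (1 + ε)) :
    volume.real (E \ closedBall 0 1) ≤ volume.real (closedBall (0 : V (m + 2)) (1 + ε)) -
      volume.real (closedBall (0 : V (m + 2)) 1) ∧
    volume.real (closedBall 0 1 \ E) = volume.real (E \ closedBall 0 1) := by
  have hB : MeasurableSet (closedBall (0 : V (m + 2)) 1) := isClosed_closedBall.measurableSet
  have hBf : volume (closedBall (0 : V (m + 2)) 1) ≠ ⊤ := measure_closedBall_lt_top.ne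
  have hBf2 : volume (closedBall (0 : V (m + 2)) (1 + ε)) ≠ ⊤ := measure_closedBall_lt_top.ne
  have hEf : volume E ≠ ⊤ := hv ▸ hBf
  have hsub2 : closedBall (0 : V (m + 2)) 1 ⊆ closedBall 0 (1 + ε) :=
    closedBall_subset_closedBall (by linarith)
  constructor
  · rw [← measureReal_sdiff hsub2 hB hBf2]
    exact measureReal_mono (sdiff_subset_sdiff_left hsub)
      ((measure_mono sdiff_subset).trans_lt measure_closedBall_lt_top).ne
  · have h1 := measureReal_inter_add_sdiff (μ := volume) (s := E) hB hEf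
    have h2 := measureReal_inter_add_sdiff (μ := volume) (s := closedBall (0 : V (m + 2)) 1) hE hBf
    rw [inter_comm] at h2
    have h3 : volume.real E = volume.real (closedBall (0 : V (m + 2)) 1) := by
      rw [measureReal_def, measureReal_def, hv]
    linarith

/-- Hausdorff distance from the volume. -/
lemma hausdorff_small (ρ : ℝ) (hρ : 0 < ρ) (hρ2 : ρ ≤ 1) : ∃ ε > (0 : ℝ), ∀ E : Set (V (m + 2)),
    MeasurableSet E → volume E = volume (closedBall (0 : V (m + 2)) 1) →
    E ⊆ closedBall (0 : V (m + 2)) (1 + ε) → hausdorffDist E (closedBall 0 1) ≤ ρ := by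
  set cρ := volume.real (ball (0 : V (m + 2)) (ρ / 2)) with hcρ
  have hcpos : 0 < cρ := by
    rw [hcρ, measureReal_def]
    exact ENNReal.toReal_pos (measure_ball_pos _ _ (by linarith)).ne' measure_ball_lt_top.ne
  have hev := (tendsto_shell (m := m)).eventually (gt_mem_nhds hcpos)
  have hev2 : ∀ᶠ ε : ℝ in 𝓝 0, |ε| < ρ := by
    have : Tendsto (fun ε : ℝ => |ε|) (𝓝 0) (𝓝 0) := by
      simpa using (continuous_abs.tendsto (0 : ℝ))
    exact this.eventually (gt_mem_nhds hρ)
  obtain ⟨δ, hδ, hδ2⟩ := Metric.eventually_nhds_iff.1 (hev.and hev2)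
  refine ⟨δ / 2, by linarith, fun E hE hv hsub => ?_⟩
  have h0 := hδ2 (y := δ / 2) (by
    rw [Real.dist_eq, sub_zero, abs_of_pos (by linarith)]; linarith)
  rw [abs_of_pos (by linarith : 0 < δ / 2)] at h0
  obtain ⟨h1, h2⟩ := h0
  have hs := symm_small hE hv (by linarith : 0 ≤ δ / 2) hsub
  refine hausdorffDist_le_of_mem_dist hρ.le ?_ ?_
  · intro x hx
    have hxn := hsub hx
    rw [mem_closedBall_zero_iff] at hxn
    by_cases hx1 : ‖x‖ ≤ 1
    · exact ⟨x, by rwa [mem_closedBall_zero_iff], by simpa using hρ.le⟩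
    · push Not at hx1
      refine ⟨‖x‖⁻¹ • x, ?_, ?_⟩
      · rw [mem_closedBall_zero_iff, norm_smul, norm_inv, norm_norm,
          inv_mul_cancel₀ (by linarith)]
      · rw [dist_eq_norm]
        have : x - ‖x‖⁻¹ • x = (1 - ‖x‖⁻¹) • x := by rw [sub_smul, one_smul]
        rw [this, norm_smul, Real.norm_eq_abs, abs_of_nonneg
          (by rw [sub_nonneg]; exact inv_le_one_of_one_le₀ hx1.le), sub_mul,
          inv_mul_cancel₀ (by linarith)]
        linarith
  · intro y hy
    by_contra! hcon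
    have hyn := hy
    rw [mem_closedBall_zero_iff] at hyn
    set y' := (1 - ρ / 2) • y with hy'
    have hyy : ‖y' - y‖ ≤ ρ / 2 := by
      have : y' - y = (-(ρ / 2)) • y := by rw [hy']; module
      rw [this, norm_smul, Real.norm_eq_abs, abs_neg, abs_of_pos (by linarith)]
      nlinarith [norm_nonneg y]
    have hyn' : ‖y'‖ ≤ 1 - ρ / 2 := by
      rw [hy', norm_smul, Real.norm_eq_abs, abs_of_nonneg (by linarith)]
      nlinarith [norm_nonneg y]
    have hsub3 : ball y' (ρ / 2) ⊆ closedBall 0 1 \ E := by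
      intro q hq
      rw [mem_ball, dist_eq_norm] at hq
      refine ⟨?_, fun hqE => ?_⟩
      · rw [mem_closedBall_zero_iff]
        have : q = (q - y') + y' := by abel
        rw [this]
        refine (norm_add_le _ _).trans (by linarith)
      · have h5 := hcon q hqE
        rw [dist_comm, dist_eq_norm] at h5
        have : q - y = (q - y') + (y' - y) := by abel
        rw [this] at h5
        linarith [norm_add_le (q - y') (y' - y)]
    have h6 : volume.real (ball y' (ρ / 2)) = cρ := by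
      rw [hcρ, measureReal_def, measureReal_def, Measure.addHaar_ball_center]
    have h7 := measureReal_mono (μ := volume) hsub3
      ((measure_mono sdiff_subset).trans_lt measure_closedBall_lt_top).ne
    rw [h6, hs.2] at h7
    linarith [hs.1]

lemma continuous_dv {ε : ℝ} (hε : 0 < ε) : Continuous (dv m ε) := by
  unfold dv
  have c1 : Continuous fun p : V (m + 2) => √(‖px p‖ ^ 2 + ε ^ 2) :=
    ((continuous_px.norm.pow 2).add continuous_const).sqrt
  have c2 : Continuous fun p : V (m + 2) => √(‖pz p‖ ^ 2 + ε ^ 2) :=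
    ((continuous_pz.norm.pow 2).add continuous_const).sqrt
  have n1 : ∀ p : V (m + 2), √(‖px p‖ ^ 2 + ε ^ 2) ≠ 0 := fun p => by positivity
  have n2 : ∀ p : V (m + 2), √(‖pz p‖ ^ 2 + ε ^ 2) ≠ 0 := fun p => by positivity
  exact ((continuous_const.div c1 n1).sub ((continuous_px.norm.pow 2).div (c1.pow 3)
    fun p => pow_ne_zero 3 (n1 p))).add ((continuous_const.div c2 n2).sub
    ((continuous_pz.norm.pow 2).div (c2.pow 3) fun p => pow_ne_zero 3 (n2 p)))

/-- The integrals of a continuous function are close. -/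
lemma integral_close {f : V (m + 2) → ℝ} (hf : Continuous f) {M : ℝ}
    (hM : ∀ p ∈ closedBall (0 : V (m + 2)) 2, |f p| ≤ M) {E : Set (V (m + 2))}
    (hE : MeasurableSet E) (hv : volume E = volume (closedBall (0 : V (m + 2)) 1)) {ε : ℝ}
    (hε : 0 ≤ ε) (hε1 : ε ≤ 1) (hsub : E ⊆ closedBall (0 : V (m + 2)) (1 + ε)) :
    |(∫ p in E, f p) - ∫ p in closedBall 0 1, f p| ≤
      2 * M * (volume.real (closedBall (0 : V (m + 2)) (1 + ε)) -
        volume.real (closedBall (0 : V (m + 2)) 1)) := by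
  have hB : MeasurableSet (closedBall (0 : V (m + 2)) 1) := isClosed_closedBall.measurableSet
  have hi : IntegrableOn f (closedBall (0 : V (m + 2)) 2) :=
    hf.continuousOn.integrableOn_compact (isCompact_closedBall _ _)
  have hE2 : E ⊆ closedBall (0 : V (m + 2)) 2 :=
    hsub.trans (closedBall_subset_closedBall (by linarith))
  have hB2 : closedBall (0 : V (m + 2)) 1 ⊆ closedBall 0 2 :=
    closedBall_subset_closedBall (by norm_num)
  obtain ⟨hs1, hs2⟩ := symm_small hE hv hε hsub
  have e1 := integral_inter_add_sdiff (μ := volume) hB (hi.mono_set hE2)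
  have e2 := integral_inter_add_sdiff (μ := volume) hE (hi.mono_set hB2)
  rw [inter_comm] at e2
  have b1 : |∫ p in E \ closedBall 0 1, f p| ≤ M * volume.real (E \ closedBall 0 1) := by
    have := norm_setIntegral_le_of_norm_le_const (μ := volume) (f := f) (C := M)
      (s := E \ closedBall 0 1)
      ((measure_mono (sdiff_subset.trans hE2)).trans_lt measure_closedBall_lt_top)
      (fun p hp => hM p (hE2 hp.1))
    simpa using this
  have b2 : |∫ p in closedBall 0 1 \ E, f p| ≤ M * volume.real (closedBall 0 1 \ E) := by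
    have := norm_setIntegral_le_of_norm_le_const (μ := volume) (f := f) (C := M)
      (s := closedBall 0 1 \ E)
      ((measure_mono (sdiff_subset.trans hB2)).trans_lt measure_closedBall_lt_top)
      (fun p hp => hM p (hB2 hp.1))
    simpa using this
  have hM0 : 0 ≤ M := (abs_nonneg _).trans (hM 0 (by simp))
  rw [hs2] at b2
  have h3 : (∫ p in E, f p) - ∫ p in closedBall 0 1, f p =
      (∫ p in E \ closedBall 0 1, f p) - ∫ p in closedBall 0 1 \ E, f p := by
    rw [← e1, ← e2]; ring
  rw [h3]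
  refine (abs_sub _ _).trans ?_
  nlinarith

theorem final (hD : StmtD) (hE : StmtE) (hGap : StmtG) (m : ℕ) (hm : 1 ≤ m) : StmtFinal m := by
  obtain ⟨K, hG⟩ := hD
  obtain ⟨w, hw, hw2⟩ := stmtC stmtA
  have hiter : ∀ i, iter (fun i => (ix (w i) : V (m + 2))) (lift m K) i =
      lift m fun r => iter w (K r) i := iter_lift w K
  refine ⟨lift m K, fun i => ix (w i), isCompact_lift hG, interior_body hG, stmtF m 1 K hm hG,
    (volume_body hG).symm, fun i => by rw [norm_ix, hw], ?_, ?_⟩
  · rw [Metric.tendsto_atTop]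
    intro ρ hρ
    obtain ⟨ε, hε, hε2⟩ := hausdorff_small (m := m) (min (ρ / 2) 1)
      (lt_min (by linarith) one_pos) (min_le_right _ _)
    obtain ⟨i0, hi0⟩ := body_subset (m := m) hG hw2 hε hw
    refine ⟨i0, fun i hi => ?_⟩
    obtain ⟨N, hN⟩ := good_iter hw hG i
    rw [hiter, Real.dist_eq, sub_zero, abs_of_nonneg hausdorffDist_nonneg]
    have := hε2 _ (isClosed_lift hN).measurableSet (volume_body hN) (hi0 i hi)
    exact (this.trans (min_le_left _ _)).trans_lt (by linarith)
  · obtain ⟨ε, hε, c, hc, hgap⟩ := hGap m hm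
    have hcont := continuous_dv (m := m) hε
    obtain ⟨M, hM⟩ := (isCompact_closedBall (0 : V (m + 2)) 2).exists_bound_of_continuousOn
      hcont.continuousOn
    have hM0 : 0 ≤ M := (norm_nonneg _).trans (hM 0 (by simp))
    set P := perimeter (closedBall (0 : V (m + 2)) 1) with hP
    set I := ∫ p in closedBall (0 : V (m + 2)) 1, dv m ε p with hI
    have hPt : P ≠ ⊤ := ne_top_of_le_ne_top ENNReal.ofReal_ne_top
      ((le_add_of_nonneg_right bot_le).trans hgap)
    have hIpos : 0 < I := by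
      by_contra! hcon
      rw [ENNReal.ofReal_eq_zero.2 hcon] at hgap
      have : ENNReal.ofReal c ≤ 0 := (le_add_of_nonneg_left bot_le).trans hgap
      rw [nonpos_iff_eq_zero, ENNReal.ofReal_eq_zero] at this
      linarith
    have hreal : P.toReal + c ≤ I := by
      rw [← ENNReal.ofReal_toReal hPt, ← ENNReal.ofReal_add ENNReal.toReal_nonneg hc.le,
        ENNReal.ofReal_le_ofReal_iff hIpos.le] at hgap
      exact hgap
    refine ⟨c / 2, by linarith, ?_⟩
    have hlim : Tendsto (fun ε : ℝ => 2 * M *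
        (volume.real (closedBall (0 : V (m + 2)) (1 + |ε|)) -
          volume.real (closedBall (0 : V (m + 2)) 1))) (𝓝 0) (𝓝 0) := by
      simpa using (tendsto_shell (m := m)).const_mul (2 * M)
    obtain ⟨δ, hδ, hδ2⟩ := Metric.eventually_nhds_iff.1
      (hlim.eventually (gt_mem_nhds (by linarith : 0 < c / 2)))
    set η := min (δ / 2) 1 with hη
    have hη0 : 0 < η := lt_min (by linarith) one_pos
    have h0 := hδ2 (y := η) (by
      rw [Real.dist_eq, sub_zero, abs_of_pos hη0]
      exact (min_le_left _ _).trans_lt (by linarith))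
    rw [abs_of_pos hη0] at h0
    obtain ⟨i0, hi0⟩ := body_subset (m := m) hG hw2 hη0 hw
    filter_upwards [eventually_ge_atTop i0] with i hi
    obtain ⟨N, hN⟩ := good_iter hw hG i
    rw [hiter]
    have h1 := integral_close hcont (M := M) (fun p hp => by simpa using hM p hp)
      (isClosed_lift hN).measurableSet (volume_body hN) hη0.le (min_le_right _ _) (hi0 i hi)
    have h2 := abs_le.1 (h1.trans h0.le)
    refine le_trans ?_ (hE m N _ ε hm hN hε)
    rw [← ENNReal.ofReal_toReal hPt, ← ENNReal.ofReal_add ENNReal.toReal_nonneg (by linarith)]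
    refine ENNReal.ofReal_le_ofReal ?_
    linarith [h2.1]

end Pool.Agent.R921.SP
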