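import Pool.Agent.R921.SP.Mem

/-!
Stability of good families under planar Steiner symmetrization (SP-B).
-/

open MeasureTheory Metric Set Filter Topology
open scoped ENNReal

namespace Pool.Agent.R921.SP

/-- the perpendicular vector -/
noncomputable def perp (u : Pl) : Pl := !₂[-(u 1), u 0]

lemma inner_pl (x y : Pl) : inner ℝ x y = x 0 * y 0 + x 1 * y 1 := by
  rw [PiLp.inner_apply, Fin.sum_univ_two]
  simp [mul_comm]

lemma sq_of_unit {u : Pl} (hu : ‖u‖ = 1) : u 0 ^ 2 + u 1 ^ 2 = 1 := by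
  have h := EuclideanSpace.real_norm_sq_eq u
  rw [hu, Fin.sum_univ_two] at h
  linarith

lemma perp_zero (u : Pl) : perp u 0 = -(u 1) := by simp [perp]
lemma perp_one (u : Pl) : perp u 1 = u 0 := by simp [perp]

lemma inner_perp (u : Pl) : inner ℝ u (perp u) = 0 := by
  rw [inner_pl, perp_zero, perp_one]; ring

lemma norm_perp (u : Pl) : ‖perp u‖ = ‖u‖ := by
  have h1 := EuclideanSpace.real_norm_sq_eq u
  have h2 := EuclideanSpace.real_norm_sq_eq (perp u)
  rw [Fin.sum_univ_two] at h1 h2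
  rw [perp_zero, perp_one] at h2
  have h3 : ‖perp u‖ ^ 2 = ‖u‖ ^ 2 := by rw [h1, h2]; ring
  exact (sq_eq_sq₀ (norm_nonneg _) (norm_nonneg _)).1 h3

lemma expand {u : Pl} (hu : ‖u‖ = 1) (x : Pl) :
    x = inner ℝ x (perp u) • perp u + inner ℝ x u • u := by
  have h := sq_of_unit hu
  ext i
  fin_cases i
  · simp only [inner_pl, perp_zero, perp_one, PiLp.add_apply, PiLp.smul_apply, smul_eq_mul,
      Fin.zero_eta]
    linear_combination -(x 0) * h
  · simp only [inner_pl, perp_zero, perp_one, PiLp.add_apply, PiLp.smul_apply, smul_eq_mul,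
      Fin.mk_one]
    linear_combination -(x 1) * h

lemma on_line {u : Pl} (hu : ‖u‖ = 1) {x p : Pl}
    (h : inner ℝ x (perp u) = inner ℝ p (perp u)) :
    x = p + (inner ℝ x u - inner ℝ p u) • u := by
  conv_lhs => rw [expand hu x, h]
  conv_rhs => rw [expand hu p]
  rw [sub_smul]
  have : inner ℝ (inner ℝ p (perp u) • perp u + inner ℝ p u • u) u = inner ℝ p u := by
    rw [← expand hu p]
  rw [this]
  abel

lemma sec_ball_volume {u p c : Pl} (hu : ‖u‖ = 1) {δ : ℝ} :
    volume {τ : ℝ | p + τ • u ∈ closedBall c δ} ≤ ENNReal.ofReal (2 * δ) := by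
  have hsub : {τ : ℝ | p + τ • u ∈ closedBall c δ} ⊆
      Icc (inner ℝ (c - p) u - δ) (inner ℝ (c - p) u + δ) := by
    intro τ hτ
    have h1 : ‖p + τ • u - c‖ ≤ δ := by
      simpa [dist_eq_norm] using hτ
    have h2 := abs_real_inner_le_norm (p + τ • u - c) u
    rw [hu, mul_one] at h2
    have h3 : inner ℝ (p + τ • u - c) u = τ - inner ℝ (c - p) u := by
      simp only [inner_sub_left, inner_add_left, inner_smul_left, real_inner_self_eq_norm_sq, hu]
      simp
      ring
    rw [h3] at h2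
    have h4 := abs_le.1 (h2.trans h1)
    constructor <;> linarith [h4.1, h4.2]
  refine (measure_mono hsub).trans ?_
  rw [Real.volume_Icc]
  exact ENNReal.ofReal_le_ofReal (by linarith)

lemma cover_volume {N : ℕ} {K1 K2 : Set Pl} {c : Fin N → Pl} {δ : ℝ}
    (hcov : K1 \ K2 ⊆ ⋃ i, closedBall (c i) δ) {u : Pl} (hu : ‖u‖ = 1) (p : Pl) :
    volume {τ : ℝ | p + τ • u ∈ K1} ≤
      volume {τ : ℝ | p + τ • u ∈ K2} + ENNReal.ofReal (2 * N * δ) := by
  have hsub : {τ : ℝ | p + τ • u ∈ K1} ⊆ {τ : ℝ | p + τ • u ∈ K2} ∪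
      ⋃ i, {τ : ℝ | p + τ • u ∈ closedBall (c i) δ} := by
    intro τ hτ
    by_cases h : p + τ • u ∈ K2
    · exact Or.inl h
    · right
      have := hcov ⟨hτ, h⟩
      simpa using this
  refine (measure_mono hsub).trans ((measure_union_le _ _).trans ?_)
  gcongr
  refine (measure_iUnion_fintype_le _ _).trans ?_
  refine (Finset.sum_le_sum fun i _ => sec_ball_volume hu).trans ?_
  rw [Finset.sum_const, Finset.card_univ, Fintype.card_fin, nsmul_eq_mul,
    ← ENNReal.ofReal_natCast, ← ENNReal.ofReal_mul (by positivity)]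
  exact ENNReal.ofReal_le_ofReal (by linarith)

lemma exists_endpoints {K : Set Pl} (hK : IsCompact K) (hc : Convex ℝ K) {u : Pl} (hu : ‖u‖ = 1)
    {p : Pl} (hne : ∃ t : ℝ, p + t • u ∈ K) : ∃ s t : ℝ, p + s • u ∈ K ∧ p + t • u ∈ K ∧ t ≤ s ∧
      volume {τ : ℝ | p + τ • u ∈ K} = ENNReal.ofReal (s - t) := by
  obtain ⟨t0, ht0⟩ := hne
  have hcomp := isCompact_sec hu hK p
  have hconn : IsConnected {t : ℝ | p + t • u ∈ K} :=
    ⟨⟨t0, ht0⟩, (convex_sec hc u p).isPreconnected⟩
  have heq := eq_Icc_of_connected_compact hconn hcomp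
  set S := {t : ℝ | p + t • u ∈ K} with hS
  have h1 : sSup S ∈ S := hcomp.sSup_mem ⟨t0, ht0⟩
  have h2 : sInf S ∈ S := hcomp.sInf_mem ⟨t0, ht0⟩
  refine ⟨sSup S, sInf S, h1, h2, csInf_le hcomp.bddBelow h1, ?_⟩
  conv_lhs => rw [heq, Real.volume_Icc]

lemma exists_ulim {α : Type*} [TopologicalSpace α] {C : Set α} (hC : IsCompact C) {f : ℕ → α}
    (h : ∀ n, f n ∈ C) : ∃ x ∈ C, Tendsto f (hyperfilter ℕ) (𝓝 x) :=
  hC.ultrafilter_le_nhds ((hyperfilter ℕ).map f) (tendsto_principal.2 (Eventually.of_forall h))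

/-- Left continuity of the symmetrized family. -/
lemma steiner_left {N : ℕ} {K : ℝ → Set Pl} {u : Pl} (hG : Good N K) (hu : ‖u‖ = 1) (r : ℝ)
    (p : Pl) (h : ∀ r' < r, p ∈ steiner u (K r')) : p ∈ steiner u (K r) := by
  have key : ∀ n : ℕ, ∃ s t : ℝ, p + s • u ∈ K (r - 1 / (n + 1)) ∧
      p + t • u ∈ K (r - 1 / (n + 1)) ∧ 2 * |inner ℝ p u| ≤ s - t := fun n =>
    (mem_steiner_iff (hG.compact _) (hG.convex _) hu p).1
      (h _ (by have : (0 : ℝ) < 1 / (n + 1) := by positivity
               linarith))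
  choose s t hs ht hst using key
  have hsub : ∀ n : ℕ, K (r - 1 / ((n : ℝ) + 1)) ⊆ K (r - 1) := fun n => hG.anti (by
    have : 1 / ((n : ℝ) + 1) ≤ 1 := by
      rw [div_le_one (by positivity)]
      have : (0 : ℝ) ≤ n := by positivity
      linarith
    linarith)
  have hc := isCompact_sec hu (hG.compact (r - 1)) p
  obtain ⟨s0, -, hs0⟩ := exists_ulim hc fun n => hsub n (hs n)
  obtain ⟨t0, -, ht0⟩ := exists_ulim hc fun n => hsub n (ht n)
  have hs0' : Tendsto s (hyperfilter ℕ) (𝓝 s0) := hs0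
  have ht0' : Tendsto t (hyperfilter ℕ) (𝓝 t0) := ht0
  rw [mem_steiner_iff (hG.compact _) (hG.convex _) hu]
  have hev : ∀ r' < r, ∀ᶠ n : ℕ in hyperfilter ℕ, r' ≤ r - 1 / ((n : ℝ) + 1) := by
    intro r' hr'
    refine Nat.hyperfilter_le_atTop ?_
    have := tendsto_one_div_add_atTop_nhds_zero_nat (𝕜 := ℝ)
    filter_upwards [this.eventually (gt_mem_nhds (sub_pos.2 hr'))] with n hn
    linarith
  refine ⟨s0, t0, ?_, ?_, ?_⟩
  · refine hG.left _ _ fun r' hr' => ?_
    refine (isClosed_sec (hG.compact r').isClosed u p).mem_of_tendsto hs0' ?_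
    filter_upwards [hev r' hr'] with n hn
    exact hG.anti hn (hs n)
  · refine hG.left _ _ fun r' hr' => ?_
    refine (isClosed_sec (hG.compact r').isClosed u p).mem_of_tendsto ht0' ?_
    filter_upwards [hev r' hr'] with n hn
    exact hG.anti hn (ht n)
  · exact ge_of_tendsto (hs0'.sub ht0') (Eventually.of_forall hst)

/-- the one-sided part of the transfer argument -/
lemma side {N : ℕ} {K : ℝ → Set Pl} {u w : Pl} (hG : Good N K) (hu : ‖u‖ = 1)
    (huw : inner ℝ u w = 0)
    (hon : ∀ x p : Pl, inner ℝ x w = inner ℝ p w → x = p + (inner ℝ x u - inner ℝ p u) • u)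
    {r : ℝ} {r1 r2 : ℕ → ℝ} {c : ℕ → Fin N → Pl} {p : ℕ → Pl} {p0 x y : Pl} {η : ℝ}
    (h1 : ∀ k, r1 k < r) (h2 : ∀ k, r < r2 k)
    (hcov : ∀ k : ℕ, K (r1 k) \ K (r2 k) ⊆ ⋃ i, closedBall (c k i) (1 / ((k : ℝ) + 1)))
    (hp : Tendsto p (hyperfilter ℕ) (𝓝 p0))
    (hpS : ∀ k, p k ∈ steiner u (K (r1 k)))
    (hx : x ∈ K r) (hy : y ∈ K r) (hxp : inner ℝ x w = inner ℝ p0 w)
    (hyp : inner ℝ y w = inner ℝ p0 w) (hη : 0 < η)
    (hηle : η ≤ inner ℝ x u - inner ℝ y u)
    (hbd : ∀ᶠ k in (hyperfilter ℕ : Filter ℕ), ∀ x' ∈ K (r1 k), ∀ y' ∈ K (r1 k),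
      inner ℝ x' w = inner ℝ (p k) w → inner ℝ y' w = inner ℝ (p k) w →
        inner ℝ x' u - inner ℝ y' u < inner ℝ x u - inner ℝ y u - η)
    (hpos : ∀ᶠ k in (hyperfilter ℕ : Filter ℕ), inner ℝ p0 w < inner ℝ (p k) w) : False := by
  have hKsub : ∀ k, K r ⊆ K (r1 k) := fun k => hG.anti (h1 k).le
  have hK2 : ∀ k, K (r2 k) ⊆ K r := fun k => hG.anti (h2 k).le
  have hlim : Tendsto (fun k => inner ℝ (p k) w) (hyperfilter ℕ) (𝓝 (inner ℝ p0 w)) :=
    hp.inner tendsto_const_nhds
  set d := inner ℝ x u - inner ℝ y u with hd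
  by_cases hq : ∃ q ∈ K r, inner ℝ p0 w < inner ℝ q w
  · obtain ⟨q, hqK, hqw⟩ := hq
    set D := inner ℝ q w - inner ℝ p0 w with hD
    have hDpos : 0 < D := sub_pos.2 hqw
    have hth : Tendsto (fun k => (inner ℝ (p k) w - inner ℝ p0 w) / D) (hyperfilter ℕ) (𝓝 0) := by
      have := (hlim.sub_const (inner ℝ p0 w)).div_const D
      simpa using this
    have hth2 : Tendsto (fun k => (inner ℝ (p k) w - inner ℝ p0 w) / D * d) (hyperfilter ℕ)
        (𝓝 0) := by
      simpa using hth.mul_const d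
    obtain ⟨k, hk1, hk2, hk3, hk4⟩ := (hbd.and (hpos.and ((hth.eventually
      (gt_mem_nhds one_pos)).and (hth2.eventually (gt_mem_nhds hη))))).exists
    set θ := (inner ℝ (p k) w - inner ℝ p0 w) / D with hθ
    have hθ0 : 0 < θ := div_pos (sub_pos.2 hk2) hDpos
    have hθD : θ * D = inner ℝ (p k) w - inner ℝ p0 w := div_mul_cancel₀ _ hDpos.ne'
    have hx' : (1 - θ) • x + θ • q ∈ K (r1 k) :=
      hG.convex _ (hKsub k hx) (hKsub k hqK) (by linarith) hθ0.le (by ring)
    have hy' : (1 - θ) • y + θ • q ∈ K (r1 k) :=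
      hG.convex _ (hKsub k hy) (hKsub k hqK) (by linarith) hθ0.le (by ring)
    have hline : ∀ z : Pl, inner ℝ z w = inner ℝ p0 w →
        inner ℝ ((1 - θ) • z + θ • q) w = inner ℝ (p k) w := by
      intro z hz
      simp only [inner_add_left, real_inner_smul_left, hz]
      linear_combination hθD
    have := hk1 _ hx' _ hy' (hline x hxp) (hline y hyp)
    simp only [inner_add_left, real_inner_smul_left] at this
    have h5 : (1 - θ) * d < d - η := by
      rw [hd]; linarith
    linarith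
  · push Not at hq
    have hlim0 : Tendsto (fun k : ℕ => 2 * N * (1 / ((k : ℝ) + 1))) (hyperfilter ℕ) (𝓝 0) := by
      have h := (tendsto_one_div_add_atTop_nhds_zero_nat (𝕜 := ℝ)).mono_left
        (Nat.hyperfilter_le_atTop)
      simpa using h.const_mul (2 * (N : ℝ))
    obtain ⟨k, hk1, hk2⟩ := (hpos.and (hlim0.eventually (gt_mem_nhds (half_pos hη)))).exists
    obtain ⟨τ, hτ⟩ := (hpS k).1
    set q := p k + τ • u with hqdef
    have hqw : inner ℝ q w = inner ℝ (p k) w := by
      rw [hqdef, inner_add_left, real_inner_smul_left, huw]; ring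
    have hmx : (1 / 2 : ℝ) • x + (1 / 2 : ℝ) • q ∈ K (r1 k) :=
      hG.convex _ (hKsub k hx) hτ (by norm_num) (by norm_num) (by norm_num)
    have hmy : (1 / 2 : ℝ) • y + (1 / 2 : ℝ) • q ∈ K (r1 k) :=
      hG.convex _ (hKsub k hy) hτ (by norm_num) (by norm_num) (by norm_num)
    set my := (1 / 2 : ℝ) • y + (1 / 2 : ℝ) • q with hmydef
    have hmyw : inner ℝ p0 w < inner ℝ my w := by
      rw [hmydef, inner_add_left, real_inner_smul_left, real_inner_smul_left, hyp, hqw]
      linarith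
    have hempty : {τ : ℝ | my + τ • u ∈ K (r2 k)} = ∅ := by
      rw [Set.eq_empty_iff_forall_notMem]
      intro σ hσ
      have := hq _ (hK2 k hσ)
      rw [inner_add_left, real_inner_smul_left, huw] at this
      linarith
    have hvol := cover_volume (hcov k) hu my
    rw [hempty, measure_empty, zero_add] at hvol
    have hmx2 : (1 / 2 : ℝ) • x + (1 / 2 : ℝ) • q = my + (d / 2) • u := by
      have hxy : x = y + d • u := hon x y (by rw [hxp, hyp])
      rw [hmydef]
      conv_lhs => rw [hxy]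
      module
    have hlow := sec_subset_volume (hG.convex (r1 k)) (u := u) (p := my) (s := d / 2) (t := 0)
      (by rw [← hmx2]; exact hmx) (by simpa using hmy)
    have := hlow.trans hvol
    rw [ENNReal.ofReal_le_ofReal_iff (by positivity)] at this
    linarith

lemma ultra_exists_fin {N : ℕ} {𝒰 : Ultrafilter ℕ} {P : Fin N → ℕ → Prop}
    (h : ∀ k, ∃ i, P i k) : ∃ i, ∀ᶠ k in (𝒰 : Filter ℕ), P i k := by
  by_contra hcon
  push Not at hcon
  have h2 : ∀ i, ∀ᶠ k in (𝒰 : Filter ℕ), ¬ P i k := fun i => hcon i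
  obtain ⟨k, hk⟩ := (eventually_all.2 h2).exists
  obtain ⟨i, hi⟩ := h k
  exact hk i hi

lemma transfer (hA : StmtA) {N : ℕ} {K : ℝ → Set Pl} {u : Pl} (hG : Good N K) (hu : ‖u‖ = 1)
    {r : ℝ} (hs : ∀ δ > 0, ∃ r1 r2, r1 < r ∧ r < r2 ∧
      ∃ c : Fin N → Pl, K r1 \ K r2 ⊆ ⋃ i, closedBall (c i) δ) (ρ : ℝ) (hρ : 0 < ρ) :
    ∃ r1 r2, r1 < r ∧ r < r2 ∧ ∃ c : Fin (2 * N) → Pl,
      steiner u (K r1) \ steiner u (K r2) ⊆ ⋃ i, closedBall (c i) ρ := by
  by_contra! hneg
  have key : ∀ k : ℕ, ∃ r1 r2 : ℝ, ∃ c : Fin N → Pl, r - 1 / ((k : ℝ) + 1) ≤ r1 ∧ r1 < r ∧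
      r < r2 ∧ K r1 \ K r2 ⊆ ⋃ i, closedBall (c i) (1 / ((k : ℝ) + 1)) := by
    intro k
    have hk : (0 : ℝ) < 1 / ((k : ℝ) + 1) := by positivity
    obtain ⟨r1, r2, h1, h2, c, hc⟩ := hs _ hk
    refine ⟨max r1 (r - 1 / ((k : ℝ) + 1)), r2, c, le_max_right _ _,
      max_lt h1 (by linarith), h2, ?_⟩
    exact (sdiff_subset_sdiff_left (hG.anti (le_max_left _ _))).trans hc
  choose r1 r2 c hr1 h1 h2 hcov using key
  set w := perp u with hw
  -- limits of the positions of the lines
  obtain ⟨R, hR⟩ := (hA u _ hu (hG.compact (r - 1)) (hG.convex _)).1.isBounded.exists_norm_le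
  have hr11 : ∀ k, r - 1 ≤ r1 k := fun k => by
    refine le_trans ?_ (hr1 k)
    have : 1 / ((k : ℝ) + 1) ≤ 1 := by
      rw [div_le_one (by positivity)]
      have : (0 : ℝ) ≤ k := by positivity
      linarith
    linarith
  have hSsub : ∀ k, steiner u (K (r1 k)) ⊆ steiner u (K (r - 1)) := fun k =>
    steiner_mono (hG.anti (hr11 k))
  have hwn : ‖w‖ = 1 := by rw [hw, norm_perp, hu]
  have hcl : ∀ i : Fin N, ∃ a : ℝ, Tendsto (fun k => max (-|R|) (min |R| (inner ℝ (c k i) w)))
      (hyperfilter ℕ) (𝓝 a) := by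
    intro i
    obtain ⟨a, -, ha⟩ := exists_ulim (isCompact_Icc (a := -|R|) (b := |R|))
      (f := fun k => max (-|R|) (min |R| (inner ℝ (c k i) w))) (fun k =>
        ⟨le_max_left _ _, max_le (by linarith [abs_nonneg R]) (min_le_left _ _)⟩)
    exact ⟨a, ha⟩
  choose a ha using hcl
  -- the centres
  set lam : Fin N → ℝ := fun i => (volume {τ : ℝ | a i • w + τ • u ∈ K r}).toReal with hlam
  set C : Fin 2 × Fin N → Pl := fun b =>
    a b.2 • w + ((if b.1 = 0 then (1 : ℝ) else -1) * (lam b.2 / 2)) • u with hC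
  have hpk : ∀ k, ∃ p, p ∈ steiner u (K (r1 k)) ∧ p ∉ steiner u (K (r2 k)) ∧
      ∀ b, p ∉ closedBall (C b) ρ := by
    intro k
    have := hneg (r1 k) (r2 k) (h1 k) (h2 k) (fun j => C (finProdFinEquiv.symm j))
    rw [Set.not_subset] at this
    obtain ⟨p, hp, hp2⟩ := this
    refine ⟨p, hp.1, hp.2, fun b hb => hp2 ?_⟩
    rw [mem_iUnion]
    exact ⟨finProdFinEquiv b, by simpa using hb⟩
  choose p hp1 hp2 hp3 using hpk
  obtain ⟨p0, -, hp0⟩ := exists_ulim (hA u _ hu (hG.compact (r - 1)) (hG.convex _)).1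
    (fun k => hSsub k (hp1 k))
  have hsmall := (tendsto_one_div_add_atTop_nhds_zero_nat (𝕜 := ℝ)).mono_left
    (Nat.hyperfilter_le_atTop)
  -- the line of `p k` meets one of the balls
  have hcball : ∀ k, ∃ i, |inner ℝ (p k) w - inner ℝ (c k i) w| ≤ 1 / ((k : ℝ) + 1) := by
    intro k
    have hne : ∃ τ : ℝ, p k + τ • u ∈ K (r1 k) \ K (r2 k) := by
      by_contra hcon
      push Not at hcon
      apply hp2 k
      have heq : {t : ℝ | p k + t • u ∈ K (r1 k)} = {t : ℝ | p k + t • u ∈ K (r2 k)} := by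
        ext τ
        constructor
        · intro h
          by_contra h'
          exact hcon τ ⟨h, h'⟩
        · intro h
          exact hG.anti ((h1 k).trans (h2 k)).le h
      obtain ⟨⟨t, ht⟩, hv⟩ := hp1 k
      exact ⟨⟨t, by have : t ∈ {t : ℝ | p k + t • u ∈ K (r1 k)} := ht
                    rwa [heq] at this⟩, heq ▸ hv⟩
    obtain ⟨τ, hτ⟩ := hne
    obtain ⟨i, hi⟩ := mem_iUnion.1 (hcov k hτ)
    refine ⟨i, ?_⟩
    have h3 : ‖p k + τ • u - c k i‖ ≤ 1 / ((k : ℝ) + 1) := by
      simpa [dist_eq_norm] using hi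
    have h4 := abs_real_inner_le_norm (p k + τ • u - c k i) w
    rw [hwn, mul_one] at h4
    have h5 : inner ℝ (p k + τ • u - c k i) w = inner ℝ (p k) w - inner ℝ (c k i) w := by
      rw [inner_sub_left, inner_add_left, real_inner_smul_left, inner_perp]; ring
    rw [h5] at h4
    exact h4.trans h3
  obtain ⟨i, hi⟩ := ultra_exists_fin (𝒰 := hyperfilter ℕ) hcball
  have hlim : Tendsto (fun k => inner ℝ (p k) w) (hyperfilter ℕ) (𝓝 (inner ℝ p0 w)) :=
    hp0.inner tendsto_const_nhds
  have hai : a i = inner ℝ p0 w := by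
    refine tendsto_nhds_unique (ha i) ?_
    have hdiff : Tendsto (fun k => inner ℝ (p k) w -
        (inner ℝ (p k) w - max (-|R|) (min |R| (inner ℝ (c k i) w)))) (hyperfilter ℕ)
        (𝓝 (inner ℝ p0 w - 0)) := by
      refine hlim.sub ?_
      refine squeeze_zero_norm' ?_ hsmall
      filter_upwards [hi] with k hk
      have hpR : |inner ℝ (p k) w| ≤ |R| := by
        have h4 := abs_real_inner_le_norm (p k) w
        rw [hwn, mul_one] at h4
        exact h4.trans ((hR _ (hSsub k (hp1 k))).trans (le_abs_self R))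
      have hp4 := abs_le.1 hpR
      have hk' := abs_le.1 hk
      rw [Real.norm_eq_abs, abs_le]
      have hkpos : (0 : ℝ) < 1 / ((k : ℝ) + 1) := by positivity
      constructor
      · have : max (-|R|) (min |R| (inner ℝ (c k i) w)) ≤
            inner ℝ (p k) w + 1 / ((k : ℝ) + 1) := by
          refine max_le (by linarith [hp4.1]) ((min_le_right _ _).trans ?_)
          linarith [hk'.1]
        linarith
      · have : inner ℝ (p k) w - 1 / ((k : ℝ) + 1) ≤
            max (-|R|) (min |R| (inner ℝ (c k i) w)) := by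
          refine le_trans ?_ (le_max_right _ _)
          refine le_min (by linarith [hp4.2]) ?_
          linarith [hk'.2]
        linarith
    simpa using hdiff
  -- `p0` is in the limit symmetral
  have hp0S : p0 ∈ steiner u (K r) := by
    refine steiner_left hG hu r p0 fun r' hr' => ?_
    refine (hA u _ hu (hG.compact r') (hG.convex _)).1.isClosed.mem_of_tendsto hp0 ?_
    filter_upwards [hsmall.eventually (gt_mem_nhds (sub_pos.2 hr'))] with k hk
    exact steiner_mono (hG.anti (by linarith [hr1 k])) (hp1 k)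
  obtain ⟨s, t, hsK, htK, hts, hvol⟩ := exists_endpoints (hG.compact r) (hG.convex r) hu hp0S.1
  have hle : 2 * |inner ℝ p0 u| ≤ s - t := by
    have := hp0S.2
    rw [hvol, ENNReal.ofReal_le_ofReal_iff (sub_nonneg.2 hts)] at this
    exact this
  have huw : inner ℝ u w = 0 := inner_perp u
  have huu : inner ℝ u u = (1 : ℝ) := by rw [real_inner_self_eq_norm_sq, hu]; norm_num
  -- equality
  have hge : s - t ≤ 2 * |inner ℝ p0 u| := by
    by_contra! hlt
    set x := p0 + s • u with hx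
    set y := p0 + t • u with hy
    set η := (s - t - 2 * |inner ℝ p0 u|) / 2 with hη
    have hηpos : 0 < η := by rw [hη]; linarith
    have hxu : inner ℝ x u - inner ℝ y u = s - t := by
      rw [hx, hy]
      simp only [inner_add_left, real_inner_smul_left, huu]
      ring
    have hxw : inner ℝ x w = inner ℝ p0 w := by
      rw [hx, inner_add_left, real_inner_smul_left, huw]; ring
    have hyw : inner ℝ y w = inner ℝ p0 w := by
      rw [hy, inner_add_left, real_inner_smul_left, huw]; ring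
    have hbd : ∀ᶠ k in (hyperfilter ℕ : Filter ℕ), ∀ x' ∈ K (r1 k), ∀ y' ∈ K (r1 k),
        inner ℝ x' w = inner ℝ (p k) w → inner ℝ y' w = inner ℝ (p k) w →
          inner ℝ x' u - inner ℝ y' u < inner ℝ x u - inner ℝ y u - η := by
      have hlimu : Tendsto (fun k => 2 * |inner ℝ (p k) u| + 2 * N * (1 / ((k : ℝ) + 1)))
          (hyperfilter ℕ) (𝓝 (2 * |inner ℝ p0 u| + 2 * N * 0)) :=
        ((hp0.inner tendsto_const_nhds).abs.const_mul 2).add (hsmall.const_mul _)
      have hlt2 : 2 * |inner ℝ p0 u| + 2 * N * 0 < s - t - η := by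
        rw [hη]; linarith
      filter_upwards [hlimu.eventually (gt_mem_nhds hlt2)] with k hk x' hx' y' hy' hx'w hy'w
      rw [hxu]
      refine lt_of_le_of_lt ?_ hk
      have hx2 := on_line hu hx'w
      have hy2 := on_line hu hy'w
      have hlow := sec_subset_volume (hG.convex (r1 k)) (hx2 ▸ hx') (hy2 ▸ hy')
      have hup := cover_volume (hcov k) hu (p k)
      have hsec : volume {τ : ℝ | p k + τ • u ∈ K (r2 k)} ≤
          ENNReal.ofReal (2 * |inner ℝ (p k) u|) := by
        by_contra! hc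
        apply hp2 k
        refine ⟨?_, hc.le⟩
        have hne : {τ : ℝ | p k + τ • u ∈ K (r2 k)}.Nonempty :=
          nonempty_of_measure_ne_zero (lt_of_le_of_lt bot_le hc).ne'
        exact hne
      have hfin := hlow.trans (hup.trans (add_le_add_left hsec _))
      rw [← ENNReal.ofReal_add (by positivity) (by positivity),
        ENNReal.ofReal_le_ofReal_iff (by positivity)] at hfin
      linarith
    have hηle : η ≤ inner ℝ x u - inner ℝ y u := by
      rw [hxu, hη]
      have := abs_nonneg (inner ℝ p0 u)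
      linarith
    have h3 : (∀ᶠ k in (hyperfilter ℕ : Filter ℕ), inner ℝ p0 w < inner ℝ (p k) w) ∨
        (∀ᶠ k in (hyperfilter ℕ : Filter ℕ), inner ℝ (p k) w < inner ℝ p0 w) ∨
        (∀ᶠ k in (hyperfilter ℕ : Filter ℕ), inner ℝ (p k) w = inner ℝ p0 w) := by
      rw [← Ultrafilter.eventually_or, ← Ultrafilter.eventually_or]
      refine Eventually.of_forall fun k => ?_
      rcases lt_trichotomy (inner ℝ p0 w) (inner ℝ (p k) w) with h | h | h
      · exact Or.inl h
      · exact Or.inr (Or.inr h.symm)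
      · exact Or.inr (Or.inl h)
    rcases h3 with h3 | h3 | h3
    · exact side hG hu huw (fun x p h => on_line hu h) h1 h2 hcov hp0 hp1 hsK htK hxw hyw hηpos
        hηle hbd h3
    · refine side (w := -w) hG hu (by rw [inner_neg_right, huw, neg_zero])
        (fun x p h => on_line hu (by simpa [inner_neg_right] using h)) h1 h2 hcov hp0 hp1 hsK htK
        (by simpa [inner_neg_right] using hxw) (by simpa [inner_neg_right] using hyw) hηpos
        hηle ?_ ?_
      · filter_upwards [hbd] with k hk x' hx' y' hy' e1 e2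
        exact hk x' hx' y' hy' (by simpa [inner_neg_right] using e1)
          (by simpa [inner_neg_right] using e2)
      · filter_upwards [h3] with k hk
        simpa [inner_neg_right] using hk
    · obtain ⟨k, hk1, hk2⟩ := (hbd.and h3).exists
      have := hk1 x (hG.anti (h1 k).le hsK) y (hG.anti (h1 k).le htK) (by rw [hxw, hk2])
        (by rw [hyw, hk2])
      linarith
  have heq : 2 * |inner ℝ p0 u| = s - t := le_antisymm hle hge
  -- `p0` is one of the centres
  have hlami : lam i = s - t := by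
    have hset : {τ : ℝ | p0 + τ • u ∈ K r} =
        (fun τ => τ + inner ℝ p0 u) ⁻¹' {τ : ℝ | a i • w + τ • u ∈ K r} := by
      ext τ
      simp only [mem_ofPred_eq, mem_preimage]
      have : p0 + τ • u = a i • w + (τ + inner ℝ p0 u) • u := by
        conv_lhs => rw [expand hu p0]
        rw [hai, add_smul]
        abel
      rw [this]
    rw [hset, measure_preimage_add_right] at hvol
    rw [hlam]
    simp only
    rw [hvol, ENNReal.toReal_ofReal (sub_nonneg.2 hts)]
  have hcent : ∃ b : Fin 2 × Fin N, p0 = C b := by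
    rcases le_or_gt 0 (inner ℝ p0 u) with h | h
    · refine ⟨(0, i), ?_⟩
      rw [abs_of_nonneg h] at heq
      simp only [hC, hlami, ← heq, hai, if_true]
      conv_lhs => rw [expand hu p0]
      congr 2
      ring
    · refine ⟨(1, i), ?_⟩
      rw [abs_of_neg h] at heq
      simp only [hC, hlami, ← heq, hai]
      conv_lhs => rw [expand hu p0]
      congr 2
      simp
      ring
  obtain ⟨b, hb⟩ := hcent
  have hball : ∀ᶠ k in (hyperfilter ℕ : Filter ℕ), p k ∈ closedBall (C b) ρ := by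
    rw [← hb]
    exact hp0.eventually (closedBall_mem_nhds p0 hρ)
  obtain ⟨k, hk⟩ := hball.exists
  exact hp3 k b hk

theorem stmtB (hA : StmtA) : StmtB := by
  intro N K u hG hu
  refine ⟨?_, ?_, ?_, ?_, ?_, ?_, ?_, ?_⟩
  · exact fun r => (hA u _ hu (hG.compact r) (hG.convex r)).1
  · exact fun r => (hA u _ hu (hG.compact r) (hG.convex r)).2.1
  · exact fun r s h => steiner_mono (hG.anti h)
  · exact fun r x h => steiner_left hG hu r x h
  · intro r hr
    obtain ⟨x, hx⟩ := hG.nonempty r hr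
    refine ⟨x + (-inner ℝ x u) • u, ⟨inner ℝ x u, ?_⟩, ?_⟩
    · simpa using hx
    · have : inner ℝ (x + (-inner ℝ x u) • u) u = 0 := by
        rw [inner_add_left, real_inner_smul_left, real_inner_self_eq_norm_sq, hu]; ring
      rw [this]
      simp
  · intro r hr
    simp [steiner, hG.empty r hr]
  · intro r hr
    rw [(hA u _ hu (hG.compact r) (hG.convex r)).2.2, hG.area r hr]
  · filter_upwards [hG.small] with r hr hr2 ρ hρ
    exact transfer hA hG hu (hr hr2) ρ hρ

end Pool.Agent.R921.SP
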