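import Pool.Agent.R921.SP.B

/-!
The bodies `lift m K` and their horizontal Steiner symmetrals.
-/

open MeasureTheory Metric Set Filter Topology
open scoped ENNReal

namespace Pool.Agent.R921.SP

variable {m : ℕ}

lemma px_zero_apply (p : V (m + 2)) : px p 0 = p 0 := by simp [px]
lemma px_one_apply (p : V (m + 2)) : px p 1 = p 1 := by simp [px]
lemma pz_apply (p : V (m + 2)) (j : Fin m) : pz p j = p j.succ.succ := by simp [pz]

lemma px_add (p q : V (m + 2)) : px (p + q) = px p + px q := by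
  ext i; fin_cases i <;> simp [px]

lemma px_smul (t : ℝ) (q : V (m + 2)) : px (t • q) = t • px q := by
  ext i; fin_cases i <;> simp [px]

lemma pz_add (p q : V (m + 2)) : pz (p + q) = pz p + pz q := by
  ext i; simp [pz]

lemma pz_smul (t : ℝ) (q : V (m + 2)) : pz (t • q) = t • pz q := by
  ext i; simp [pz]

lemma norm_sq_split (p : V (m + 2)) : ‖p‖ ^ 2 = ‖px p‖ ^ 2 + ‖pz p‖ ^ 2 := by
  rw [EuclideanSpace.real_norm_sq_eq, EuclideanSpace.real_norm_sq_eq,
    EuclideanSpace.real_norm_sq_eq, Fin.sum_univ_succ, Fin.sum_univ_succ, Fin.sum_univ_two,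
    px_zero_apply, px_one_apply]
  simp only [pz_apply]
  rw [← add_assoc]
  rfl

lemma continuous_px : Continuous (px : V (m + 2) → Pl) := by
  unfold px
  refine (PiLp.continuous_toLp 2 _).comp (continuous_pi fun i => ?_)
  fin_cases i
  · simp only [Fin.zero_eta, Matrix.cons_val_zero]
    fun_prop
  · simp only [Fin.mk_one, Matrix.cons_val_one, Matrix.cons_val_zero]
    fun_prop

lemma continuous_pz : Continuous (pz : V (m + 2) → V m) := by
  unfold pz
  refine (PiLp.continuous_toLp 2 _).comp (continuous_pi fun i => ?_)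
  fun_prop

lemma isClosed_lift {N : ℕ} {K : ℝ → Set Pl} (hG : Good N K) : IsClosed (lift m K) := by
  refine isClosed_of_closure_subset fun p hp => hG.left _ _ fun r' hr' => ?_
  have hopen : {q : V (m + 2) | r' < ‖pz q‖} ∈ 𝓝 p :=
    (isOpen_lt continuous_const continuous_pz.norm).mem_nhds hr'
  have hcl : IsClosed {q : V (m + 2) | px q ∈ K r'} :=
    (hG.compact r').isClosed.preimage continuous_px
  by_contra hcon
  have hnhds : {q : V (m + 2) | px q ∈ K r'}ᶜ ∈ 𝓝 p := hcl.isOpen_compl.mem_nhds hcon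
  obtain ⟨q, hq, hqE⟩ := mem_closure_iff_nhds.1 hp _ (inter_mem hopen hnhds)
  exact hq.2 (hG.anti (le_of_lt hq.1) hqE)

lemma norm_pz_le {N : ℕ} {K : ℝ → Set Pl} (hG : Good N K) {p : V (m + 2)} (hp : p ∈ lift m K) :
    ‖pz p‖ ≤ 1 := by
  by_contra! h
  have : px p ∈ K ‖pz p‖ := hp
  rw [hG.empty _ h] at this
  exact this

lemma isCompact_lift {N : ℕ} {K : ℝ → Set Pl} (hG : Good N K) : IsCompact (lift m K) := by
  obtain ⟨R, hR⟩ := (hG.compact 0).isBounded.exists_norm_le
  refine (isCompact_closedBall (0 : V (m + 2)) (|R| + 1)).of_isClosed_subset (isClosed_lift hG)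
    fun p hp => ?_
  rw [mem_closedBall_zero_iff]
  have h1 : ‖pz p‖ ≤ 1 := norm_pz_le hG hp
  have h2 : ‖px p‖ ≤ |R| := (hR _ (hG.anti (norm_nonneg _) hp)).trans (le_abs_self R)
  have h3 := norm_sq_split p
  refine (sq_le_sq₀ (norm_nonneg _) (by positivity)).1 ?_
  rw [h3]
  nlinarith [norm_nonneg (px p), norm_nonneg (pz p), abs_nonneg R]

lemma px_ix (x : Pl) : px (ix x : V (m + 2)) = x := by
  ext i; fin_cases i
  · simp [px, ix]
  · simp only [px, ix]
    rfl

lemma pz_ix (x : Pl) : pz (ix x : V (m + 2)) = 0 := by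
  ext i; simp [pz, ix]

lemma norm_ix (x : Pl) : ‖(ix x : V (m + 2))‖ = ‖x‖ := by
  have h := norm_sq_split (ix x : V (m + 2))
  rw [px_ix, pz_ix, norm_zero] at h
  have h2 : ‖(ix x : V (m + 2))‖ ^ 2 = ‖x‖ ^ 2 := by rw [h]; ring
  exact (sq_eq_sq₀ (norm_nonneg _) (norm_nonneg _)).1 h2

lemma inner_ix (p : V (m + 2)) (x : Pl) : inner ℝ p (ix x) = inner ℝ (px p) x := by
  rw [PiLp.inner_apply, Fin.sum_univ_succ, Fin.sum_univ_succ, inner_pl, px_zero_apply,
    px_one_apply]
  simp [ix, mul_comm]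

lemma steiner_lift (u : Pl) (K : ℝ → Set Pl) :
    steiner (ix u) (lift m K) = lift m fun r => steiner u (K r) := by
  ext p
  have hmem : ∀ t : ℝ, (p + t • (ix u : V (m + 2)) ∈ lift m K) ↔ px p + t • u ∈ K ‖pz p‖ := by
    intro t
    simp only [lift, mem_ofPred_eq, px_add, px_smul, px_ix, pz_add, pz_smul, pz_ix, smul_zero,
      add_zero]
  simp only [steiner, lift, mem_ofPred_eq, inner_ix] at hmem ⊢
  simp only [hmem]

lemma iter_lift (u : ℕ → Pl) (K : ℝ → Set Pl) (i : ℕ) :
    iter (fun i => (ix (u i) : V (m + 2))) (lift m K) i = lift m fun r => iter u (K r) i := by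
  induction i with
  | zero => rfl
  | succ i ih => simp only [iter, ih, steiner_lift]

end Pool.Agent.R921.SP
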