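import Pool.Agent.R921.SP.Defs

/-!
Membership in the Steiner symmetral of a compact convex planar set.
-/

open MeasureTheory Metric Set Filter Topology
open scoped ENNReal

namespace Pool.Agent.R921.SP

section general
variable {F : Type*} [NormedAddCommGroup F] [InnerProductSpace ℝ F]

lemma isClosed_sec {K : Set F} (hK : IsClosed K) (u p : F) : IsClosed {t : ℝ | p + t • u ∈ K} :=
  hK.preimage (by fun_prop)

lemma isCompact_sec {K : Set F} {u : F} (hu : ‖u‖ = 1) (hK : IsCompact K) (p : F) :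
    IsCompact {t : ℝ | p + t • u ∈ K} := by
  obtain ⟨R, hR⟩ := hK.isBounded.exists_norm_le
  refine (isCompact_Icc (a := -(R + ‖p‖)) (b := R + ‖p‖)).of_isClosed_subset
    (isClosed_sec hK.isClosed u p) fun t ht => ?_
  have h1 := hR _ ht
  have h2 : ‖t • u‖ ≤ ‖p + t • u‖ + ‖p‖ := by
    have := norm_sub_le (p + t • u) p
    simpa using this
  rw [norm_smul, hu, mul_one, Real.norm_eq_abs] at h2
  exact abs_le.1 (h2.trans (by linarith))

lemma convex_sec {K : Set F} (hK : Convex ℝ K) (u p : F) :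
    Convex ℝ {t : ℝ | p + t • u ∈ K} := by
  intro s hs t ht a b ha hb hab
  have := hK hs ht ha hb hab
  have h2 : a • (p + s • u) + b • (p + t • u) = p + (a • s + b • t) • u := by
    have : p = (a + b) • p := by rw [hab, one_smul]
    conv_rhs => rw [this]
    simp only [smul_add, add_smul, smul_eq_mul, mul_smul]
    abel
  rw [h2] at this
  exact this

lemma sec_subset_volume {K : Set F} (hK : Convex ℝ K) {u p : F} {s t : ℝ}
    (hs : p + s • u ∈ K) (ht : p + t • u ∈ K) :
    ENNReal.ofReal (s - t) ≤ volume {τ : ℝ | p + τ • u ∈ K} := by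
  rw [← Real.volume_Icc]
  refine measure_mono ?_
  exact (convex_sec hK u p).ordConnected.out ht hs

theorem mem_steiner_iff {K : Set F} (hK : IsCompact K) (hc : Convex ℝ K) {u : F} (hu : ‖u‖ = 1)
    (p : F) : p ∈ steiner u K ↔
      ∃ s t : ℝ, p + s • u ∈ K ∧ p + t • u ∈ K ∧ 2 * |inner ℝ p u| ≤ s - t := by
  constructor
  · rintro ⟨⟨t0, ht0⟩, hv⟩
    have hcomp := isCompact_sec hu hK p
    have hconn : IsConnected {t : ℝ | p + t • u ∈ K} :=
      ⟨⟨t0, ht0⟩, (convex_sec hc u p).isPreconnected⟩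
    have heq := eq_Icc_of_connected_compact hconn hcomp
    set S := {t : ℝ | p + t • u ∈ K} with hS
    have h1 : sSup S ∈ S := hcomp.sSup_mem ⟨t0, ht0⟩
    have h2 : sInf S ∈ S := hcomp.sInf_mem ⟨t0, ht0⟩
    refine ⟨sSup S, sInf S, h1, h2, ?_⟩
    rw [heq, Real.volume_Icc] at hv
    rw [ENNReal.ofReal_le_ofReal_iff] at hv
    · exact hv
    · exact sub_nonneg.2 (csInf_le hcomp.bddBelow h1)
  · rintro ⟨s, t, hs, ht, h⟩
    exact ⟨⟨s, hs⟩, (ENNReal.ofReal_le_ofReal h).trans (sec_subset_volume hc hs ht)⟩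

lemma steiner_mono {u : F} {K L : Set F} (h : K ⊆ L) : steiner u K ⊆ steiner u L := by
  rintro p ⟨⟨t, ht⟩, hv⟩
  exact ⟨⟨t, h ht⟩, hv.trans (measure_mono fun _ hx => h hx)⟩

end general

end Pool.Agent.R921.SP
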